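import Pool.Agent.MP_94842c_co.LimDefs

/-! Vertices on short cycles. -/

set_option autoImplicit false

namespace Pool.Agent.MP_94842c_co.Tree

/-- The vertices of `G` that lie on a cycle of length at most `g`. -/
def short {V : Type} (G : SimpleGraph V) (g : ℕ) : Set V :=
  {v | ∃ p : G.Walk v v, p.IsCycle ∧ p.length ≤ g}

end Pool.Agent.MP_94842c_co.Tree
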