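import Pool.Agent.MP_94842c_co.h42.UpG

/-! The lower bound for graphs without short cycles. -/

set_option autoImplicit false

namespace Pool.Agent.MP_94842c_co.Tree

open SimpleGraph Lim Real Filter Topology
open scoped Nat

theorem rate {j D r c E : ℕ} (hj : 0 < j) (hr : r + D = 30 * j) (hE : D ≤ E)
    (h : ((7 * j).descFactorial (6 * j) * 30 ^ (6 * j)) ^ 2 * r ! ≤
      (42 * j)! * (42 * j) ^ D * ((2 * (7 * j)) ^ 2 * c)) :
    ((gm ^ 2) ^ 42) ^ j ≤ (42 * (j + 1) : ℝ) ^ (2 * E + 5) * c := by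
  have a := Nat.factorial_mul_descFactorial (show 6 * j ≤ 7 * j by omega)
  have b := Nat.factorial_mul_descFactorial (show D ≤ 30 * j by omega)
  rw [show 7 * j - 6 * j = j by omega] at a
  rw [show 30 * j - D = r by omega] at b
  have h1 : ((7 * j)! * 30 ^ (6 * j)) ^ 2 * (30 * j)! ≤
      j ! ^ 2 * (42 * j)! * ((30 * j) ^ D * (42 * j) ^ D * (2 * (7 * j)) ^ 2 * c) :=
    calc _ = j ! ^ 2 * (((7 * j).descFactorial (6 * j) * 30 ^ (6 * j)) ^ 2 * r !) *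
          (30 * j).descFactorial D := by rw [← a, ← b]; ring
      _ ≤ _ := Nat.mul_le_mul (Nat.mul_le_mul_left _ h) (Nat.descFactorial_le_pow _ _)
      _ = _ := by ring
  have h2 : (((7 * j)! : ℝ) * 30 ^ (6 * j)) ^ 2 * (30 * j)! ≤
      (j ! : ℝ) ^ 2 * (42 * j)! * ((30 * j) ^ D * (42 * j) ^ D * (2 * (7 * j)) ^ 2 * c) := by
    exact_mod_cast h1
  have j0 : (0 : ℝ) < j := by exact_mod_cast hj
  have l1 := fac_lo (7 * j)
  have l2 := fac_lo (30 * j)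
  have u1 := fac_hi j
  have u2 := fac_hi (42 * j)
  push_cast at l1 l2 u2
  rw [mul_div_assoc] at l1 l2 u2
  have y0 : 0 < (j : ℝ) / exp 1 := by positivity
  generalize (j : ℝ) / exp 1 = y at *
  have h3 : ((7 * y) ^ (7 * j) * 30 ^ (6 * j)) ^ 2 * (30 * y) ^ (30 * j) ≤
      (3 * (j + 1) * y ^ j) ^ 2 * (3 * (42 * j + 1) * (42 * y) ^ (42 * j)) *
        ((42 * (j + 1)) ^ E * (42 * (j + 1)) ^ E * (42 * (j + 1)) ^ 2 * c) := by
    refine le_trans (by gcongr) (h2.trans ?_)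
    have e : ∀ x : ℝ, 0 ≤ x → x ≤ 42 * (j + 1) → x ^ D ≤ (42 * (j + 1)) ^ E := fun x h0 h =>
      (pow_le_pow_left₀ h0 h D).trans (pow_le_pow_right₀ (by linarith) hE)
    have e1 := e (30 * j) (by positivity) (by linarith)
    have e2 := e (42 * j) (by positivity) (by linarith)
    have e3 : (2 * (7 * j) : ℝ) ^ 2 ≤ (42 * (j + 1)) ^ 2 :=
      pow_le_pow_left₀ (by positivity) (by linarith) 2
    gcongr
  have e1 : ((7 * y) ^ (7 * j) * 30 ^ (6 * j)) ^ 2 * (30 * y) ^ (30 * j) =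
      (42 ^ 42 * y ^ 44) ^ j * ((gm ^ 2) ^ 42) ^ j := by
    rw [pow_mul, pow_mul, pow_mul, ← mul_pow, ← pow_mul, mul_comm j, pow_mul, ← mul_pow, ← mul_pow]
    congr 1
    rw [show (gm ^ 2) ^ 42 = (gm ^ 6) ^ 14 by ring, gm_six]
    ring
  have e2 : (3 * (j + 1) * y ^ j) ^ 2 * (3 * (42 * j + 1) * (42 * y) ^ (42 * j)) =
      (42 ^ 42 * y ^ 44) ^ j * (27 * (j + 1) ^ 2 * (42 * j + 1)) := by
    rw [show (42 ^ 42 * y ^ 44 : ℝ) = y * y * (42 * y) ^ 42 by ring, pow_mul, mul_pow _ _ j,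
      mul_pow y y]
    ring
  rw [e1, e2, mul_assoc, mul_le_mul_iff_right₀ (by positivity)] at h3
  refine h3.trans ?_
  have e3 : (27 * (j + 1) ^ 2 * (42 * j + 1) : ℝ) ≤ (42 * (j + 1)) ^ 3 := by
    nlinarith [sq_nonneg (j + 1 : ℝ), mul_pos j0 (mul_pos j0 j0)]
  refine (mul_le_mul_of_nonneg_right e3 (by positivity)).trans_eq ?_
  ring

theorem lower (g : ℕ) {b : ℝ} (b0 : 0 ≤ b) (hb : b < gm ^ 2) : ∃ m0 : ℕ, ∀ m ≥ m0,
    ∃ (n : ℕ) (G : SimpleGraph (Fin n ⊕ Fin n)), G.edgeSet.ncard = m ∧ short G g = ∅ ∧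
      b ^ m ≤ (cycles G).ncard := by
  obtain ⟨D0, hD⟩ : ∃ D0, D0 = 6 * 7 ^ (g + 1) := ⟨_, rfl⟩
  obtain ⟨a, a1, a2, a3⟩ : ∃ a : ℝ, 1 ≤ a ∧ b ≤ a ∧ a < gm ^ 2 :=
    ⟨max b 1, le_max_right _ _, le_max_left _ _, max_lt hb (by nlinarith [gm_ge])⟩
  have x1 : 1 < (gm ^ 2 / a) ^ 42 :=
    one_lt_pow₀ ((one_lt_div (by linarith)).2 a3) (by norm_num)
  have t := ((tendsto_pow_const_div_const_pow_of_one_lt (2 * (D0 + 42) + 5) x1).comp
    (tendsto_add_atTop_nat 1)).const_mul (42 ^ (2 * (D0 + 42) + 5) * (gm ^ 2 / a) ^ 42)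
  rw [mul_zero] at t
  obtain ⟨j0, h0⟩ := eventually_atTop.1 (t.eventually (gt_mem_nhds one_pos))
  refine ⟨42 * (j0 + D0 + g + 2), fun m hm => ?_⟩
  obtain ⟨j, hj⟩ : ∃ j, j = (m + D0) / 42 + 1 := ⟨_, rfl⟩
  obtain ⟨G, g1, g2, g3⟩ := count (A := Fin (7 * j)) (g := g + 1) (k := 6 * j - 1)
    (D := 42 * j - m) (r := 30 * j - (42 * j - m)) (by omega) (by omega) (by omega)
    (by simp; omega) (by simp; omega)
  rw [show 6 * j - 1 + 1 = 6 * j by omega] at g1 g3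
  rw [Fintype.card_fin, show 2 * (6 * j) + (30 * j - (42 * j - m)) + (42 * j - m) = 42 * j by
    omega] at g3
  refine ⟨_, G, by omega, Set.eq_empty_of_subset_empty (g2 ▸ fun v ⟨p, hp, hl⟩ =>
    ⟨p, hp, hl.trans g.le_succ⟩), ?_⟩
  have r := rate (E := D0 + 42) (by omega) (by omega) (by omega) g3
  have s := h0 j (by omega)
  simp only [Function.comp] at s
  rw [← mul_div_assoc, div_lt_one (by positivity), pow_succ _ j, mul_right_comm, ← mul_pow,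
    mul_lt_mul_iff_left₀ (by positivity), div_pow, div_pow, lt_div_iff₀ (by positivity)] at s
  push_cast at s
  refine ((pow_le_pow_left₀ b0 a2 m).trans (pow_le_pow_right₀ a1 (show m ≤ 42 * j by omega))).trans
    (le_of_mul_le_mul_left (le_trans ?_ r) (by positivity))
  rw [pow_mul]
  exact s.le

end Pool.Agent.MP_94842c_co.Tree
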