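import Mathlib.Combinatorics.SimpleGraph.Acyclic
import Mathlib.Combinatorics.SimpleGraph.Connectivity.Subgraph
import Mathlib.Combinatorics.Enumerative.DoubleCounting
import Pool.Agent.MP_94842c_co.Lim
import Pool.Agent.MP_94842c_co.h42.Defs
import Mathlib.Logic.Equiv.Fintype
import Mathlib.Data.Fintype.Perm
import Mathlib.Data.Nat.Choose.Bounds
import Mathlib.Data.Fintype.CardEmbedding
import Mathlib.Analysis.Convex.SpecificFunctions.Basic
import Mathlib.Analysis.SpecialFunctions.Log.Basic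
import Mathlib.Algebra.Order.BigOperators.Group.Finset
import Mathlib.Data.Fintype.BigOperators
import Mathlib.Algebra.BigOperators.Field
import Mathlib.Algebra.BigOperators.Group.Finset.Powerset
import Mathlib.Data.Fintype.Powerset
import Mathlib.Tactic.IntervalCases
import Mathlib.Analysis.SpecialFunctions.Stirling
import Mathlib.Analysis.Complex.ExponentialBounds
import Mathlib.Analysis.SpecialFunctions.Trigonometric.Inverse
import Mathlib.Analysis.SpecialFunctions.Pow.Real
import Mathlib.Data.Nat.Choose.Sum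
import Mathlib.Analysis.SpecificLimits.Normed

-- ======== part 0: formerly Pool.Agent.MP_94842c_co.h42.Ball
section MrgPart0

/-! Balls, potentials on forests, degrees in a cycle. -/

set_option autoImplicit false

namespace Pool.Agent.MP_94842c_co.Tree

open SimpleGraph Lim

variable {V : Type} {G : SimpleGraph V}

/-- vertices within distance `r` of `x` -/
def ball (G : SimpleGraph V) (r : ℕ) (x : V) : Set V := {y | ∃ p : G.Walk x y, p.length ≤ r}

theorem ball_symm {r : ℕ} {x y : V} (h : y ∈ ball G r x) : x ∈ ball G r y :=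
  let ⟨p, hp⟩ := h; ⟨p.reverse, by simpa using hp⟩

theorem ncard_le_mul {α β : Type} [Finite α] [Finite β] {s : Set α} {t : Set β} (f : β → Set α)
    {n : ℕ} (h : ∀ a ∈ s, ∃ b ∈ t, a ∈ f b) (hn : ∀ b ∈ t, (f b).ncard ≤ n) :
    s.ncard ≤ t.ncard * n := by
  classical
  rw [Set.ncard_eq_toFinset_card s, Set.ncard_eq_toFinset_card t]
  refine (Finset.card_le_card (t := t.toFinite.toFinset.biUnion fun b => (f b).toFinite.toFinset)
    fun a ha => by simpa using h a (by simpa using ha)).trans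
    (Finset.card_biUnion_le_card_mul _ _ _ fun b hb => ?_)
  rw [← Set.ncard_eq_toFinset_card]
  exact hn b (by simpa using hb)

theorem ball_card [Finite V] {D : ℕ} (h : ∀ v, (G.neighborSet v).ncard ≤ D) (r : ℕ) (x : V) :
    (ball G r x).ncard ≤ (D + 1) ^ r := by
  induction r with
  | zero =>
    refine (Set.ncard_le_ncard (t := {x}) ?_).trans (by simp)
    rintro y ⟨p, hp⟩
    exact (p.eq_of_length_eq_zero (by omega)).symm
  | succ r ih =>
    refine (ncard_le_mul (t := ball G r x) (fun y => insert y (G.neighborSet y)) (n := D + 1)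
      (fun y hy => ?_) fun y _ => (Set.ncard_insert_le _ _).trans (by simp [h y])).trans
      (by rw [pow_succ]; gcongr)
    obtain ⟨p, hp⟩ := ball_symm hy
    cases p with
    | nil => exact ⟨x, ⟨.nil, by simp⟩, .inl rfl⟩
    | cons a p => exact ⟨_, ball_symm ⟨p, by simpa using hp⟩, .inr a.symm⟩

/-- transport along a walk -/
def tr {α : Type} (γ : V → V → α → α) : ∀ {u v : V}, G.Walk u v → α → α
  | _, _, .nil, a => a
  | u, _, .cons (v := w) _ p, a => tr γ p (γ u w a)

theorem tr_concat {α : Type} (γ : V → V → α → α) {u v w : V} (p : G.Walk u v) (h : G.Adj v w)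
    (a : α) : tr γ (p.concat h) a = γ v w (tr γ p a) := by
  induction p generalizing a with
  | nil => rfl
  | cons _ p ih => exact ih h _

theorem pot {α : Type} (hG : G.IsAcyclic) (γ : V → V → α → α)
    (hγ : ∀ u v a, G.Adj u v → γ u v (γ v u a) = a) (x : V) (i : α) :
    ∃ A : V → α, A x = i ∧ ∀ u v, G.Adj u v → G.Reachable x u → A v = γ u v (A u) := by
  classical
  have : ∀ y, G.Reachable x y → ∃ p : G.Walk x y, p.IsPath := fun y h => h.exists_isPath
  choose p hp using this
  refine ⟨fun y => if h : G.Reachable x y then tr γ (p y h) i else i, ?_, fun u v h hu => ?_⟩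
  · simp only [dif_pos (Reachable.refl x), (Walk.isPath_iff_nil.1 (hp x (.refl x))).eq_nil, tr]
  · have hv := hu.trans h.reachable
    simp only [dif_pos hu, dif_pos hv]
    by_cases c : u ∈ (p v hv).support
    · rw [hG.path_concat (hp u hu) (hp v hv) h c, tr_concat]
    · rw [hG.path_concat (hp v hv) (hp u hu) h.symm
        (hG.mem_support_of_ne_mem_support_of_adj_of_isPath (hp u hu) (hp v hv) h c), tr_concat,
        hγ _ _ _ h]

/-- the edges with both ends in `B` -/
def inside (G : SimpleGraph V) (B : Set V) : SimpleGraph V where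
  Adj u v := G.Adj u v ∧ u ∈ B ∧ v ∈ B
  symm := ⟨fun _ _ h => ⟨h.1.symm, h.2.2, h.2.1⟩⟩
  loopless := ⟨fun _ h => h.1.ne rfl⟩

theorem inside_acyclic [Finite V] {B : Set V} {g : ℕ} (hB : B.ncard ≤ g)
    (h : ∀ v ∈ B, v ∉ short G g) : (inside G B).IsAcyclic := by
  classical
  intro v c hc
  have s : ∀ {u w : V} (p : (inside G B).Walk u w), ∀ y ∈ p.support.tail, y ∈ B := by
    intro u w p
    induction p with
    | nil => simp
    | cons a p ih =>
      intro y hy
      rw [Walk.support_cons, List.tail_cons, ← p.cons_tail_support, List.mem_cons] at hy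
      exact hy.elim (fun e => e ▸ a.2.2) (ih y)
  refine h v (c.adj_snd hc.not_nil).2.1 ⟨c.mapLe (G' := G) fun _ _ a => And.left a, hc.mapLe _, ?_⟩
  have := Set.ncard_le_ncard (s := c.support.tail.toFinset) (t := B) fun y hy =>
    s c y (by simpa using hy)
  rw [Set.ncard_coe_finset, List.toFinset_card_of_nodup hc.support_nodup] at this
  simp only [List.length_tail, Walk.length_support, Nat.add_sub_cancel] at this
  simpa [Walk.mapLe] using this.trans hB

theorem inside_reach {r : ℕ} {x y : V} (h : y ∈ ball G r x) :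
    (inside G (ball G r x)).Reachable x y := by
  classical
  obtain ⟨p, hp⟩ := h
  have s : ∀ z ∈ p.support, z ∈ ball G r x := fun z hz =>
    ⟨p.takeUntil z hz, (p.length_takeUntil_le_length hz).trans hp⟩
  refine ⟨p.transfer _ fun e he => ?_⟩
  induction e with
  | h a b => exact ⟨p.adj_of_mem_edges he, s a (p.fst_mem_support_of_mem_edges he),
      s b (p.snd_mem_support_of_mem_edges he)⟩

theorem cyc_deg {C : Set (Sym2 V)} (h : C ∈ cycles G) (x : V) :
    {y | s(x, y) ∈ C}.ncard = 0 ∨ {y | s(x, y) ∈ C}.ncard = 2 := by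
  obtain ⟨v, p, hp, rfl⟩ := h
  by_cases c : x ∈ p.support
  · refine .inr (Eq.trans (congrArg _ (Set.ext fun y => ?_))
      (hp.ncard_neighborSet_toSubgraph_eq_two c))
    exact Walk.adj_toSubgraph_iff_mem_edges.symm
  · refine .inl (Eq.trans (congrArg _ (Set.eq_empty_of_forall_notMem fun y hy => ?_))
      (Set.ncard_empty _))
    exact c (p.fst_mem_support_of_mem_edges hy)

theorem short_mono {H : SimpleGraph V} (h : H ≤ G) (g : ℕ) : short H g ⊆ short G g :=
  fun _ ⟨p, hp, hl⟩ => ⟨p.mapLe h, hp.mapLe _, by simpa [Walk.mapLe] using hl⟩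

theorem exists_light [Finite V] {x : V} (h : 8 ≤ (G.neighborSet x).ncard) : ∃ y, G.Adj x y ∧
    3 * (cycles G).ncard ≤ 4 * (cycles (G.deleteEdges {s(x, y)})).ncard := by
  classical
  by_contra! u
  have := Finset.card_mul_le_card_mul (s := (G.neighborSet x).toFinite.toFinset)
    (t := (cycles G).toFinite.toFinset) (fun y C => s(x, y) ∈ C) (m := (cycles G).ncard / 4 + 1)
    (n := 2) (fun y hy => ?_) fun C hC => ?_
  · rw [← Set.ncard_eq_toFinset_card, ← Set.ncard_eq_toFinset_card] at this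
    have := (Nat.mul_le_mul_right _ h).trans this
    omega
  · have a := u y (by simpa using hy)
    have b := (Set.ncard_le_ncard (s := cycles G) (t := cycles (G.deleteEdges {s(x, y)}) ∪
      ((cycles G).toFinite.toFinset.bipartiteAbove (fun y C => s(x, y) ∈ C) y : Set _)) (by
        rintro _ ⟨v, p, hp, rfl⟩
        by_cases c : s(x, y) ∈ p.edges
        · exact .inr (by simpa using ⟨⟨v, p, hp, rfl⟩, c⟩)
        · exact .inl ⟨v, p.toDeleteEdges _ fun e he (h : e = s(x, y)) => c (h ▸ he),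
            hp.toDeleteEdges _ _ _, by ext; simp⟩)).trans (Set.ncard_union_le _ _)
    rw [Set.ncard_coe_finset] at b
    omega
  · have a := cyc_deg (G := G) (C := C) (by simpa using hC) x
    have b := Set.ncard_le_ncard (t := {y | s(x, y) ∈ C}) (s :=
      ((G.neighborSet x).toFinite.toFinset.bipartiteBelow (fun y C => s(x, y) ∈ C) C : Set _))
      fun y hy => (Finset.mem_filter.1 hy).2
    rw [Set.ncard_coe_finset] at b
    omega

end Pool.Agent.MP_94842c_co.Tree

end MrgPart0

-- ======== part 1: formerly Pool.Agent.MP_94842c_co.h42.Low1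
section MrgPart1

/-! Matchings of stubs without short cycles. -/

set_option autoImplicit false
set_option linter.unusedSectionVars false

namespace Pool.Agent.MP_94842c_co.Tree

open SimpleGraph Lim Finset
open scoped Nat

theorem short_add {V : Type} {G H : SimpleGraph V} {g : ℕ} {x y : V} (h : short G g = ∅)
    (hy : y ∉ ball G g x) (hH : ∀ e ∈ H.edgeSet, e ≠ s(x, y) → e ∈ G.edgeSet) : short H g = ∅ := by
  refine Set.eq_empty_of_forall_notMem fun v ⟨p, hp, hl⟩ => ?_
  by_cases c : s(x, y) ∈ p.edges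
  · obtain ⟨a, b, hab, p1, p2, rfl, e⟩ := split p c
    have nd := hp.edges_nodup
    rw [Walk.edges_append, Walk.edges_cons, List.nodup_middle, List.nodup_cons, ← e] at nd
    have hq : a ∈ ball G g b := ⟨(p2.append p1).transfer G fun f hf =>
      hH f (Walk.edges_subset_edgeSet _ hf) fun q => nd.1 (by
        rw [Walk.edges_append, q] at hf; simpa [or_comm] using hf), by
      simp only [Walk.length_transfer, Walk.length_append, Walk.length_cons] at hl ⊢; omega⟩
    rcases Sym2.eq_iff.1 e with ⟨rfl, rfl⟩ | ⟨rfl, rfl⟩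
    exacts [hy (ball_symm hq), hy hq]
  · exact (Set.eq_empty_iff_forall_notMem.1 h) v ⟨p.transfer G fun f hf =>
      hH f (Walk.edges_subset_edgeSet _ hf) fun q => c (q ▸ hf), hp.transfer _, by simpa using hl⟩

variable {A : Type} [Fintype A] [DecidableEq A]

/-- six stubs at every vertex -/
abbrev St (A : Type) := A × Fin 6

/-- the edge given by a pair of stubs -/
def ed (p : St A × St A) : Sym2 (A ⊕ A) := s(.inl p.1.1, .inr p.2.1)

/-- the bipartite graph of a set of pairs -/
def Gr (τ : Finset (St A × St A)) : SimpleGraph (A ⊕ A) := fromEdgeSet (ed '' τ)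

theorem Gr_edges (τ : Finset (St A × St A)) : (Gr τ).edgeSet = ed '' τ := by
  rw [Gr, edgeSet_fromEdgeSet, sdiff_eq_left, Set.disjoint_left]
  rintro _ ⟨p, -, rfl⟩
  simp [ed]

/-- a matching of stubs without parallel edges and short cycles -/
structure Good (g : ℕ) (τ : Finset (St A × St A)) : Prop where
  l : Set.InjOn Prod.fst (τ : Set (St A × St A))
  r : Set.InjOn Prod.snd (τ : Set (St A × St A))
  e : Set.InjOn ed (τ : Set (St A × St A))
  s : short (Gr τ) g = ∅

variable {g : ℕ} {τ : Finset (St A × St A)}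

theorem good_empty : Good g (∅ : Finset (St A × St A)) := by
  refine ⟨by simp, by simp, by simp, Set.eq_empty_of_forall_notMem fun v ⟨p, hp, _⟩ => ?_⟩
  simpa [Gr] using p.adj_snd hp.not_nil

theorem Good.insert (h : Good g τ) (hg : 1 ≤ g) {p : St A × St A} (h1 : ∀ q ∈ τ, q.1 ≠ p.1)
    (h2 : ∀ q ∈ τ, q.2 ≠ p.2) (h3 : Sum.inr p.2.1 ∉ ball (Gr τ) g (.inl p.1.1)) :
    Good g (insert p τ) := by
  have hp : p ∉ (τ : Set (St A × St A)) := fun c => h1 p c rfl
  refine ⟨?_, ?_, ?_, short_add h.s h3 ?_⟩ <;>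
    simp only [coe_insert, Set.injOn_insert hp, h.l, h.r, h.e, true_and, Gr_edges]
  · exact fun ⟨q, a, b⟩ => h1 q a b
  · exact fun ⟨q, a, b⟩ => h2 q a b
  · exact fun c => h3 ⟨.cons ((Gr τ).mem_edgeSet.1 (Gr_edges τ ▸ c)) .nil, by simpa using hg⟩
  · rintro _ ⟨q, rfl | hq, rfl⟩ c
    exacts [absurd rfl c, ⟨q, hq, rfl⟩]

theorem Good.deg (h : Good g τ) (v : A ⊕ A) : ((Gr τ).neighborSet v).ncard ≤ 6 := by
  have := ncard_le_mul (s := (Gr τ).neighborSet v) (t := (Set.univ : Set (Fin 6))) (n := 1)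
    (fun b => {y | ∃ q ∈ τ, (v = .inl q.1.1 ∧ q.1.2 = b ∧ y = .inr q.2.1) ∨
      (v = .inr q.2.1 ∧ q.2.2 = b ∧ y = .inl q.1.1)}) (fun y hy => ?_) fun b _ => ?_
  · simpa [Set.ncard_univ] using this
  · obtain ⟨q, hq, e⟩ : s(v, y) ∈ ed '' τ := Gr_edges τ ▸ (Gr τ).mem_edgeSet.2 hy
    rcases Sym2.eq_iff.1 e with c | c
    · exact ⟨q.1.2, trivial, q, hq, .inl ⟨c.1.symm, rfl, c.2.symm⟩⟩
    · exact ⟨q.2.2, trivial, q, hq, .inr ⟨c.2.symm, rfl, c.1.symm⟩⟩
  · refine Set.ncard_le_one_iff_subsingleton.2 ?_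
    rintro y ⟨q, hq, ⟨a, b, rfl⟩ | ⟨a, b, rfl⟩⟩ y' ⟨q', hq', ⟨a', b', rfl⟩ | ⟨a', b', rfl⟩⟩ <;>
      rw [a] at a'
    · rw [h.l hq hq' (Prod.ext (Sum.inl.inj a') (b.trans b'.symm))]
    · cases a'
    · cases a'
    · rw [h.r hq hq' (Prod.ext (Sum.inr.inj a') (b.trans b'.symm))]

open Classical in
/-- good supersets of `τ` with `s` more pairs -/
noncomputable def ext (g : ℕ) (τ : Finset (St A × St A)) (s : ℕ) :
    Finset (Finset (St A × St A)) := {σ | Good g σ ∧ τ ⊆ σ ∧ #σ = #τ + s}

theorem mem_ext {σ : Finset (St A × St A)} {s : ℕ} :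
    σ ∈ ext g τ s ↔ Good g σ ∧ τ ⊆ σ ∧ #σ = #τ + s := by simp [ext]

theorem ext_step (hg : 1 ≤ g) {D s f : ℕ} (hD : 6 * 7 ^ g ≤ D)
    (hf : #τ + s + f + D = Fintype.card (St A)) :
    #(ext g τ s) * (f * f) ≤ #(ext g τ (s + 1)) * (s + 1) := by
  classical
  refine card_mul_le_card_mul (fun σ σ' => σ ⊆ σ') (fun σ hσ => ?_) fun σ' hσ => ?_
  · obtain ⟨h, h1, h2⟩ := mem_ext.1 hσ
    have a : ∀ o : St A, f ≤ #{o' : St A | o' ∉ σ.image Prod.snd ∧
        Sum.inr o'.1 ∉ ball (Gr σ) g (.inl o.1)} := fun o => by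
      have b := ncard_le_mul (s := {o' : St A | Sum.inr o'.1 ∈ ball (Gr σ) g (.inl o.1)})
        (t := ball (Gr σ) g (.inl o.1)) (n := 6) (fun y => {o' | Sum.inr o'.1 = y})
        (fun o' h => ⟨_, h, rfl⟩) fun y _ => (Set.ncard_le_ncard_of_injOn (t := Set.univ) Prod.snd
          (fun _ _ => trivial) fun a ha b hb e =>
            Prod.ext (Sum.inr.inj (ha.trans hb.symm)) e).trans (by simp [Set.ncard_univ])
      have c : (ball (Gr σ) g (.inl o.1)).ncard ≤ 7 ^ g := ball_card h.deg g _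
      have d := card_le_card (s := univ) (t := σ.image Prod.snd ∪
        (univ.filter (fun o' : St A => Sum.inr o'.1 ∈ ball (Gr σ) g (.inl o.1)) ∪
          univ.filter fun o' : St A =>
          o' ∉ σ.image Prod.snd ∧ Sum.inr o'.1 ∉ ball (Gr σ) g (.inl o.1))) fun o' _ => by
        simp only [mem_union, mem_filter, mem_univ, true_and]; tauto
      have e := d.trans ((card_union_le _ _).trans (add_le_add card_image_le (card_union_le _ _)))
      rw [← coe_filter_univ, Set.ncard_coe_finset] at b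
      rw [card_univ] at e
      omega
    have b : f ≤ #(σ.image Prod.fst)ᶜ := by
      have := card_image_le (s := σ) (f := Prod.fst)
      rw [card_compl]; omega
    refine le_trans ?_ (card_le_card_of_injOn (s := {p : St A × St A | p.1 ∉ σ.image Prod.fst ∧
      p.2 ∉ σ.image Prod.snd ∧ Sum.inr p.2.1 ∉ ball (Gr σ) g (.inl p.1.1)})
      (fun p => insert p σ) (fun p hp => ?_) fun p hp q hq e => ?_)
    · refine (Nat.mul_le_mul_right f b).trans (le_trans (le_of_eq (mul_one _).symm) ?_)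
      rw [card_eq_sum_card_fiberwise (f := Prod.fst) (t := (σ.image Prod.fst)ᶜ)
        (fun p hp => mem_compl.2 (mem_filter.1 hp).2.1), mul_one]
      refine card_nsmul_le_sum _ _ _ fun o ho => (a o).trans
        (card_le_card_of_injOn (fun o' => (o, o')) (fun o' h => ?_) fun _ _ _ _ e =>
          congrArg Prod.snd e)
      exact mem_filter.2 ⟨mem_filter.2 ⟨mem_univ _, mem_compl.1 ho, (mem_filter.1 h).2⟩, rfl⟩
    · obtain ⟨-, p1, p2, p3⟩ := mem_filter.1 hp
      refine mem_filter.2 ⟨mem_ext.2 ⟨h.insert hg (fun q hq e => p1 (mem_image.2 ⟨q, hq, e⟩))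
        (fun q hq e => p2 (mem_image.2 ⟨q, hq, e⟩)) p3, h1.trans (subset_insert _ _), ?_⟩,
        subset_insert _ _⟩
      rw [card_insert_of_notMem fun c => p1 (mem_image_of_mem _ c), h2, add_assoc]
    · exact (mem_insert.1 ((show insert p σ = insert q σ from e) ▸ mem_insert_self p σ)).resolve_right
        fun c => (mem_filter.1 hp).2.1 (mem_image_of_mem _ c)
  · obtain ⟨h, h1, h2⟩ := mem_ext.1 hσ
    refine (card_le_card (t := (σ' \ τ).image σ'.erase) fun σ hσ => ?_).trans
      (card_image_le.trans (by rw [card_sdiff_of_subset h1]; omega))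
    obtain ⟨a, b⟩ := mem_filter.1 hσ
    obtain ⟨-, a1, a2⟩ := mem_ext.1 a
    obtain ⟨p, hp, rfl⟩ := exists_eq_insert_iff.2 ⟨b, by omega⟩
    exact mem_image.2 ⟨p, mem_sdiff.2 ⟨mem_insert_self _ _, fun c => hp (a1 c)⟩, erase_insert hp⟩

theorem ext_card (h : Good g τ) (hg : 1 ≤ g) {D r : ℕ} (hD : 6 * 7 ^ g ≤ D)
    (hr : #τ + r + D = Fintype.card (St A)) : r ! ≤ #(ext g τ r) := by
  have : ∀ s ≤ r, r.descFactorial s * r.descFactorial s ≤ #(ext g τ s) * s ! := by
    intro s hs
    induction s with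
    | zero => simpa using ⟨τ, mem_ext.2 ⟨h, Subset.rfl, rfl⟩⟩
    | succ s ih =>
      have a := ext_step (τ := τ) hg hD (s := s) (f := r - s) (by omega)
      rw [Nat.descFactorial_succ, mul_mul_mul_comm, Nat.factorial_succ, ← mul_assoc _ (s + 1)]
      refine (Nat.mul_le_mul_left _ (ih (by omega))).trans ?_
      rw [← mul_assoc, mul_comm ((r - s) * (r - s))]
      exact Nat.mul_le_mul_right _ a
  have := this r le_rfl
  rw [Nat.descFactorial_self] at this
  exact Nat.le_of_mul_le_mul_right this r.factorial_pos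

theorem ext_le {D s : ℕ} (hr : s + D = Fintype.card (St A)) :
    #(ext g (∅ : Finset (St A × St A)) s) ≤ (s + D)! * (s + D) ^ D := by
  refine (card_le_card (t := ((univ : Finset (Equiv.Perm (St A))) ×ˢ powersetCard D univ).image
    fun z => z.2ᶜ.image fun o => (o, z.1 o)) fun σ hσ => ?_).trans (card_image_le.trans ?_)
  · obtain ⟨h, -, h2⟩ := mem_ext.1 hσ
    obtain ⟨π, hπ⟩ := Equiv.Perm.exists_extending_pair (f := fun p : σ => p.1.1)
      (g := fun p : σ => p.1.2) (fun p q e => Subtype.ext (h.l p.2 q.2 e))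
      fun p q e => Subtype.ext (h.r p.2 q.2 e)
    refine mem_image.2 ⟨(π, (σ.image Prod.fst)ᶜ), mem_product.2 ⟨mem_univ _,
      mem_powersetCard_univ.2 ?_⟩, ?_⟩
    · rw [card_compl, card_image_of_injOn h.l, h2, card_empty]; omega
    · rw [compl_compl, image_image]
      exact (image_congr (g := id) fun p hp => congrArg (p.1, ·) (hπ ⟨p, hp⟩)).trans image_id
  · rw [card_product, card_univ, Fintype.card_perm, card_powersetCard, card_univ, ← hr]
    exact Nat.mul_le_mul_left _ (Nat.choose_le_pow _ _)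

end Pool.Agent.MP_94842c_co.Tree

end MrgPart1

-- ======== part 2: formerly Pool.Agent.MP_94842c_co.h42.Low2
section MrgPart2

/-! Planted cycles. -/

set_option autoImplicit false
set_option linter.unusedSectionVars false

namespace Pool.Agent.MP_94842c_co.Tree

open SimpleGraph Lim Finset
open scoped Nat

section
variable {V : Type} {G : SimpleGraph V} {L : ℕ} {x x' : ℕ → V}

/-- a cyclic sequence of distinct vertices -/
structure Cy (L : ℕ) (x : ℕ → V) : Prop where
  three : 3 ≤ L
  last : x L = x 0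
  inj : ∀ s t, s < L → t < L → x s = x t → s = t

/-- its edges -/
def es (L : ℕ) (x : ℕ → V) : Set (Sym2 V) := {e | ∃ t < L, e = s(x t, x (t + 1))}

theorem Cy.inj' (h : Cy L x) {s t : ℕ} (hs : s ≤ L) (ht : t ≤ L) (e : x s = x t) :
    s = t ∨ (s = 0 ∧ t = L) ∨ (s = L ∧ t = 0) := by
  have := h.three
  rcases hs.eq_or_lt with rfl | hs <;> rcases ht.eq_or_lt with rfl | ht
  · exact .inl rfl
  · exact .inr (.inr ⟨rfl, (h.inj 0 t (by omega) ht (h.last.symm.trans e)).symm⟩)
  · exact .inr (.inl ⟨h.inj s 0 hs (by omega) (e.trans h.last), rfl⟩)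
  · exact .inl (h.inj s t hs ht e)

theorem Cy.mem (h : Cy L x) (hG : es L x ⊆ G.edgeSet) : es L x ∈ cycles G := by
  have : ∀ j ≤ L, ∃ p : G.Walk (x 0) (x j), p.support = (List.range (j + 1)).map x ∧
      p.edges = (List.range j).map fun t => s(x t, x (t + 1)) := by
    intro j hj
    induction j with
    | zero => exact ⟨.nil, rfl, rfl⟩
    | succ j ih =>
      obtain ⟨p, h1, h2⟩ := ih (by omega)
      exact ⟨p.concat (G.mem_edgeSet.1 (hG ⟨j, hj, rfl⟩)),
        by rw [Walk.support_concat, h1, List.range_succ (n := j + 1)]; simp,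
        by rw [Walk.edges_concat, h2, List.range_succ]; simp⟩
  obtain ⟨p, h1, h2⟩ := this L le_rfl
  have l : p.length = L := by rw [← Walk.length_edges, h2]; simp
  have := h.three
  refine ⟨x 0, p.copy rfl h.last, Walk.isCycle_iff_isPath_tail_and_le_length.2 ⟨?_, by simp; omega⟩,
    ?_⟩
  · rw [Walk.isPath_def, Walk.support_tail_of_not_nil _ (by simp [Walk.not_nil_iff_lt_length]; omega),
      Walk.support_copy, h1, List.range_succ_eq_map, List.map_cons, List.tail_cons, List.map_map]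
    refine List.Nodup.map_on (fun s hs t ht e => ?_) List.nodup_range
    have := h.inj' (List.mem_range.1 hs) (List.mem_range.1 ht) e
    omega
  · ext e
    simp [es, h2, eq_comm]

theorem Cy.ext (h : Cy L x) (h' : Cy L x') (h0 : x 0 = x' 0) (h1 : x 1 = x' 1)
    (e : es L x = es L x') : ∀ t, t ≤ L → x t = x' t := by
  intro t
  induction t using Nat.twoStepInduction with
  | zero => exact fun _ => h0
  | one => exact fun _ => h1
  | more t a b =>
    intro ht
    obtain ⟨i, hi, q⟩ : s(x (t + 1), x (t + 2)) ∈ es L x' := e ▸ ⟨t + 1, ht, rfl⟩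
    rw [b (by omega)] at q
    rcases Sym2.eq_iff.1 q with c | c
    · rw [c.2, ← h'.inj _ _ ht hi c.1]
    · have := h'.inj' (by omega) hi c.1
      obtain rfl : t = i := by omega
      have := h.inj' ht (by omega) (c.2.trans (a (by omega)).symm)
      have := h.three
      omega

end

variable {A : Type} [Fintype A] [DecidableEq A] {g : ℕ}

theorem good_plant {L : ℕ} {x : ℕ → A ⊕ A} (h : Cy L x) (hg : 1 ≤ g) (hL : g + 1 < L)
    (P : ℕ → St A × St A) (he : ∀ t < L, ed (P t) = s(x t, x (t + 1)))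
    (h1 : ∀ s t, s < L → t < L → (P s).1 = (P t).1 → s = t)
    (h2 : ∀ s t, s < L → t < L → (P s).2 = (P t).2 → s = t) :
    ∀ j ≤ L, Good g ((range j).image P) := by
  classical
  obtain ⟨ht, hh⟩ : ∃ ht : A ⊕ A → ℕ, ∀ t < L, ht (x t) = t :=
    ⟨Function.invFunOn x {t | t < L}, fun t ht =>
      (show Set.InjOn x {t | t < L} from fun s hs t ht => h.inj s t hs ht).leftInvOn_invFunOn ht⟩
  intro j hj
  induction j with
  | zero => exact good_empty
  | succ j ih =>
    have w : ∀ {u v} (p : (Gr ((range j).image P)).Walk u v),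
        ht u ≤ ht v + p.length ∧ (ht u ≤ j → ht v ≤ j) := by
      intro u v p
      induction p with
      | nil => simp
      | @cons u y v a p ih =>
        obtain ⟨q, hq, e⟩ := (Gr_edges ((range j).image P)).le ((mem_edgeSet _).2 a)
        obtain ⟨t, ht', rfl⟩ := mem_image.1 hq
        have := mem_range.1 ht'
        have a1 := hh t (by omega)
        have a2 := hh (t + 1) (by omega)
        rcases Sym2.eq_iff.1 ((he t (by omega)).symm.trans e) with ⟨rfl, rfl⟩ | ⟨rfl, rfl⟩ <;> rw [Walk.length_cons] <;> omega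
    have n : x (j + 1) ∉ ball (Gr ((range j).image P)) g (x j) := fun ⟨p, hp⟩ => by
      have := w p
      rw [hh j hj] at this
      rcases hj.eq_or_lt with c | c
      · rw [show ht (x (j + 1)) = 0 by rw [c, h.last, hh 0 (by omega)]] at this; omega
      · rw [hh _ c] at this; omega
    rw [range_add_one, image_insert]
    refine (ih (by omega)).insert hg (fun q hq e => ?_) (fun q hq e => ?_) fun c => ?_
    · obtain ⟨t, ht', rfl⟩ := mem_image.1 hq
      have := mem_range.1 ht'
      have := h1 t j (by omega) hj e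
      omega
    · obtain ⟨t, ht', rfl⟩ := mem_image.1 hq
      have := mem_range.1 ht'
      have := h2 t j (by omega) hj e
      omega
    · rcases Sym2.eq_iff.1 (he j hj) with e | e <;> rw [e.1, e.2] at c
      exacts [n c, n (ball_symm c)]

/-- `k` vertices with two stubs each -/
abbrev Dat (k : ℕ) (A : Type) := (Fin (k + 1) ↪ A) × (Fin (k + 1) → Fin 2 ↪ Fin 6)

/-- index modulo the length -/
def ix (k j : ℕ) : Fin (k + 1) := if h : j < k + 1 then ⟨j, h⟩ else 0

theorem ix_val (k j : ℕ) : (ix k j : ℕ) = if j < k + 1 then j else 0 := by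
  unfold ix; split_ifs <;> rfl

variable {k : ℕ}

/-- the stub with number `s` modulo two at the vertex `j` -/
def st (δ : Dat k A) (j s : ℕ) : St A :=
  (δ.1 (ix k j), δ.2 (ix k j) ⟨s % 2, Nat.mod_lt _ two_pos⟩)

theorem st_inj {δ : Dat k A} {j s j' s' : ℕ} (h : st δ j s = st δ j' s') :
    ix k j = ix k j' ∧ s % 2 = s' % 2 := by
  have a := δ.1.injective (congrArg Prod.fst h)
  have b := congrArg Prod.snd h
  simp only [st, a] at b
  exact ⟨a, congrArg Fin.val ((δ.2 _).injective b)⟩

theorem dat_ext {δ ε : Dat k A}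
    (h : ∀ i ≤ k, ∀ s < 2, ∃ j t, (ix k j : ℕ) = i ∧ t % 2 = s ∧ st δ j t = st ε j t) : δ = ε := by
  have : ∀ (i : Fin (k + 1)) (s : Fin 2), (δ.1 i, δ.2 i s) = (ε.1 i, ε.2 i s) := fun i s => by
    obtain ⟨j, t, a, b, c⟩ := h i (Nat.le_of_lt_succ i.2) s s.2
    simpa only [st, Fin.ext a, b] using c
  exact Prod.ext (Function.Embedding.ext fun i => congrArg Prod.fst (this i 0))
    (funext fun i => Function.Embedding.ext fun s => congrArg Prod.snd (this i s))

/-- the edges of the planted cycle -/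
def pl (z : Dat k A × Dat k A) (t : ℕ) : St A × St A := (st z.1 ((t + 1) / 2) t, st z.2 (t / 2) t)

/-- its vertices -/
def xs (z : Dat k A × Dat k A) (t : ℕ) : A ⊕ A :=
  if t % 2 = 0 then .inl (z.1.1 (ix k (t / 2))) else .inr (z.2.1 (ix k (t / 2)))

theorem xs_cy (hk : 1 ≤ k) (z : Dat k A × Dat k A) : Cy (2 * (k + 1)) (xs z) := by
  refine ⟨by omega, by simp [xs, ix], fun s t hs ht e => ?_⟩
  unfold xs at e
  split_ifs at e <;> simp only [Sum.inl.injEq, Sum.inr.injEq, EmbeddingLike.apply_eq_iff_eq,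
    Fin.ext_iff, ix_val] at e <;> split_ifs at e <;> omega

theorem pl_ed (z : Dat k A × Dat k A) (t : ℕ) : ed (pl z t) = s(xs z t, xs z (t + 1)) := by
  rcases Nat.mod_two_eq_zero_or_one t with h | h
  · simp [ed, pl, st, xs, h, show (t + 1) % 2 = 1 by omega, show (t + 1) / 2 = t / 2 by omega]
  · simp [ed, pl, st, xs, h, show (t + 1) % 2 = 0 by omega]

theorem pl_l (z : Dat k A × Dat k A) (s t : ℕ) (hs : s < 2 * (k + 1)) (ht : t < 2 * (k + 1))
    (e : (pl z s).1 = (pl z t).1) : s = t := by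
  have := st_inj e
  simp only [Fin.ext_iff, ix_val] at this
  split_ifs at this <;> omega

theorem pl_r (z : Dat k A × Dat k A) (s t : ℕ) (hs : s < 2 * (k + 1)) (ht : t < 2 * (k + 1))
    (e : (pl z s).2 = (pl z t).2) : s = t := by
  have := st_inj e
  simp only [Fin.ext_iff, ix_val] at this
  split_ifs at this <;> omega

theorem pl_ext {z z' : Dat k A × Dat k A} (h : ∀ t < 2 * (k + 1), pl z t = pl z' t) : z = z' := by
  refine Prod.ext (dat_ext fun i hi s hs => ?_) (dat_ext fun i hi s hs => ?_)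
  · by_cases c : i = 0 ∧ s = 1
    · exact ⟨_, _, by rw [ix_val]; split_ifs <;> omega, by omega,
        congrArg Prod.fst (h (2 * k + 1) (by omega))⟩
    · exact ⟨_, _, by rw [ix_val]; split_ifs <;> omega, by omega,
        congrArg Prod.fst (h (2 * i - s) (by omega))⟩
  · exact ⟨_, _, by rw [ix_val]; split_ifs <;> omega, by omega,
      congrArg Prod.snd (h (2 * i + s) (by omega))⟩

theorem count (hg : 1 ≤ g) (hk : g ≤ k) {D r : ℕ} (hD : 6 * 7 ^ g ≤ D)
    (hr : 2 * (k + 1) + r + D = Fintype.card (St A)) (hA : k + 1 ≤ Fintype.card A) :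
    ∃ G : SimpleGraph (A ⊕ A), G.edgeSet.ncard = 2 * (k + 1) + r ∧ short G g = ∅ ∧
      ((Fintype.card A).descFactorial (k + 1) * 30 ^ (k + 1)) ^ 2 * r ! ≤
        (2 * (k + 1) + r + D)! * (2 * (k + 1) + r + D) ^ D *
          ((2 * Fintype.card A) ^ 2 * (cycles G).ncard) := by
  classical
  set T : Dat k A × Dat k A → Finset (St A × St A) := fun z => (range (2 * (k + 1))).image (pl z)
    with hT
  have a : ∀ z, r ! ≤ #((ext g ∅ (2 * (k + 1) + r)).bipartiteAbove (fun z σ => T z ⊆ σ) z) := by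
    intro z
    have c : #(T z) = 2 * (k + 1) := (card_image_of_injOn fun s hs t ht e =>
      pl_l z s t (by simpa using hs) (by simpa using ht) (congrArg _ e)).trans (card_range _)
    refine (ext_card (good_plant (xs_cy (by omega) z) hg (by omega) (pl z) (fun t _ => pl_ed z t)
      (pl_l z) (pl_r z) _ le_rfl) hg hD (by rw [c, hr])).trans (card_le_card fun σ hσ => ?_)
    obtain ⟨h, h1, h2⟩ := mem_ext.1 hσ
    exact mem_filter.2 ⟨mem_ext.2 ⟨h, empty_subset _, by rw [h2, c]; simp⟩, h1⟩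
  obtain ⟨u⟩ : Nonempty (Fin (k + 1) ↪ A) := Function.Embedding.nonempty_of_card_le (by simpa)
  obtain ⟨v⟩ : Nonempty (Fin 2 ↪ Fin 6) := Function.Embedding.nonempty_of_card_le (by simp)
  obtain ⟨σ0, h0⟩ := card_pos.1 (r.factorial_pos.trans_le (a ((u, fun _ => v), (u, fun _ => v))))
  obtain ⟨σ, hσ, hm⟩ := exists_max_image _ (fun σ => (cycles (Gr σ)).ncard)
    ⟨σ0, (mem_filter.1 h0).1⟩
  obtain ⟨h, -, h2⟩ := mem_ext.1 hσ
  refine ⟨Gr σ, by rw [Gr_edges, h.e.ncard_image, Set.ncard_coe_finset, h2]; simp, h.s, ?_⟩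
  refine le_trans (le_of_eq ?_) ((card_mul_le_card_mul (s := univ) (fun z σ => T z ⊆ σ)
    (fun z _ => a z) fun ρ hρ => ?_).trans (Nat.mul_le_mul_right _ (ext_le hr)))
  · simp [sq, Nat.descFactorial]
  · obtain ⟨h, -, -⟩ := mem_ext.1 hρ
    have m : ∀ z ∈ univ.bipartiteBelow (fun z σ => T z ⊆ σ) ρ, ∀ t < 2 * (k + 1), pl z t ∈ ρ :=
      fun z hz t ht => (mem_filter.1 hz).2 (mem_image_of_mem _ (mem_range.2 ht))
    refine (card_le_card_of_injOn (t := (univ ×ˢ univ) ×ˢ (cycles (Gr ρ)).toFinite.toFinset)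
      (fun z => ((xs z 0, xs z 1), es (2 * (k + 1)) (xs z))) (fun z hz => ?_)
      fun z hz z' hz' e => ?_).trans ?_
    · simp only [coe_product, coe_univ, Set.mem_prod, Set.mem_univ, true_and,
        Set.Finite.coe_toFinset]
      refine (xs_cy (by omega) z).mem ?_
      rintro _ ⟨t, ht, rfl⟩
      exact Gr_edges ρ ▸ ⟨_, m z hz t ht, pl_ed z t⟩
    · simp only [Prod.mk.injEq] at e
      have := (xs_cy (by omega) z).ext (xs_cy (by omega) z') e.1.1 e.1.2 e.2
      exact pl_ext fun t ht => h.e (m z hz t ht) (m z' hz' t ht)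
        (by rw [pl_ed, pl_ed, this t ht.le, this (t + 1) ht])
    · rw [card_product, card_product, card_univ, Fintype.card_sum, ← two_mul, ← sq,
        ← Set.ncard_eq_toFinset_card]
      exact Nat.mul_le_mul_left _ (hm ρ hρ)

end Pool.Agent.MP_94842c_co.Tree

end MrgPart2

-- ======== part 3: formerly Pool.Agent.MP_94842c_co.h42.Loc
section MrgPart3

/-! Decay of correlations for functions satisfying the monomer-dimer recursion. -/

set_option autoImplicit false

namespace Pool.Agent.MP_94842c_co.Tree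

open Finset Real

variable {W W' : Type} [DecidableEq W] [DecidableEq W'] [Fintype W] [Fintype W']

/-- The monomer-dimer recursion with weights `w`, all row sums at most `L`. -/
structure Rec (L : ℝ) (w : W → W → ℝ) (Q : Finset W → ℝ) : Prop where
  nonneg : ∀ v u, 0 ≤ w v u
  row : ∀ v, ∑ u, w v u ≤ L
  empty : Q ∅ = 1
  step : ∀ S v, v ∈ S → Q S = Q (S.erase v) + ∑ u ∈ S.erase v, w v u * Q ((S.erase v).erase u)

namespace Rec

variable {L : ℝ} {w : W → W → ℝ} {Q : Finset W → ℝ} {w' : W' → W' → ℝ} {Q' : Finset W' → ℝ}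

theorem pos (h : Rec L w Q) (S : Finset W) : 0 < Q S := by
  induction S using Finset.strongInduction with
  | H S ih =>
    rcases S.eq_empty_or_nonempty with rfl | ⟨v, hv⟩
    · rw [h.empty]; exact one_pos
    · rw [h.step S v hv]
      exact add_pos_of_pos_of_nonneg (ih _ (erase_ssubset hv)) (sum_nonneg fun u _ =>
        mul_nonneg (h.nonneg _ _) (ih _ ((erase_subset _ _).trans_ssubset (erase_ssubset hv))).le)

theorem mono (h : Rec L w Q) {S : Finset W} {v : W} (hv : v ∈ S) : Q (S.erase v) ≤ Q S := by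
  rw [h.step S v hv]
  exact le_add_of_nonneg_right (sum_nonneg fun u _ => mul_nonneg (h.nonneg _ _) (h.pos _).le)

/-- logarithm of the ratio -/
noncomputable def lr (Q : Finset W → ℝ) (S : Finset W) (v : W) : ℝ :=
  log (Q S) - log (Q (S.erase v))

/-- the sum in the recursion for the ratio -/
noncomputable def X (w : W → W → ℝ) (Q : Finset W → ℝ) (S : Finset W) (v : W) : ℝ :=
  ∑ u ∈ S.erase v, w v u * exp (-lr Q (S.erase v) u)

theorem exp_lr (h : Rec L w Q) (S : Finset W) (v : W) :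
    exp (-lr Q S v) = Q (S.erase v) / Q S := by
  rw [lr, neg_sub, exp_sub, exp_log (h.pos _), exp_log (h.pos _)]

theorem lr_eq (h : Rec L w Q) {S : Finset W} {v : W} (hv : v ∈ S) :
    lr Q S v = log (1 + X w Q S v) := by
  have p := h.pos (S.erase v)
  rw [lr, ← log_div (h.pos _).ne' p.ne', h.step S v hv, add_div, div_self p.ne', sum_div, X]
  congr 2
  exact sum_congr rfl fun u _ => by rw [h.exp_lr, mul_div_assoc]

theorem X_nonneg (h : Rec L w Q) (S : Finset W) (v : W) : 0 ≤ X w Q S v :=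
  sum_nonneg fun _ _ => mul_nonneg (h.nonneg _ _) (exp_pos _).le

theorem X_le (h : Rec L w Q) (S : Finset W) (v : W) : X w Q S v ≤ L := by
  refine le_trans (sum_le_sum fun u hu => ?_)
    ((sum_le_univ_sum_of_nonneg (h.nonneg v)).trans (h.row v))
  rw [h.exp_lr]
  exact mul_le_of_le_one_right (h.nonneg _ _) ((div_le_one (h.pos _)).2 (h.mono hu))

theorem lr_nonneg (h : Rec L w Q) {S : Finset W} {v : W} (hv : v ∈ S) : 0 ≤ lr Q S v := by
  rw [h.lr_eq hv]
  exact log_nonneg (by linarith [h.X_nonneg S v])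

theorem lr_le (h : Rec L w Q) {S : Finset W} {v : W} (hv : v ∈ S) : lr Q S v ≤ log (1 + L) := by
  rw [h.lr_eq hv]
  exact log_le_log (by linarith [h.X_nonneg S v]) (by linarith [h.X_le S v])

theorem contract {L x y δ : ℝ} (hx : 0 ≤ x) (hy : 0 ≤ y) (hL : y ≤ L) (hδ : 0 ≤ δ)
    (h : exp (-δ) * y ≤ x) : log (1 + y) - log (1 + x) ≤ L / (1 + L) * δ := by
  have y1 : 0 < 1 + y := by linarith
  have t0 : 0 ≤ y / (1 + y) := by positivity
  have t1 : y / (1 + y) ≤ L / (1 + L) := by
    rw [div_le_div_iff₀ y1 (by linarith)]; nlinarith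
  have c := convexOn_exp.2 (Set.mem_univ (-δ)) (Set.mem_univ 0) t0
    (show 0 ≤ 1 / (1 + y) by positivity) (by field_simp; ring)
  simp only [smul_eq_mul, mul_zero, add_zero, exp_zero, mul_one] at c
  have c2 : exp (y / (1 + y) * -δ) ≤ (1 + x) / (1 + y) := by
    refine c.trans ?_
    rw [div_mul_eq_mul_div, ← add_div]
    exact div_le_div_of_nonneg_right (by linarith) y1.le
  have c3 := log_le_log (exp_pos _) c2
  rw [log_exp, log_div (by linarith) y1.ne'] at c3
  nlinarith

theorem decay (h : Rec L w Q) (h' : Rec L w' Q') (s : W → W') (hs : Function.Injective s)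
    (P : ℕ → W → Prop) (hP : ∀ j v u, P (j + 1) v → w v u ≠ 0 → P j u)
    (hw : ∀ j v u, P (j + 1) v → w' (s v) (s u) = w v u)
    (hr : ∀ j v u', P (j + 1) v → w' (s v) u' ≠ 0 → ∃ u, s u = u') (j : ℕ) :
    ∀ (S : Finset W) (S' : Finset W') (v : W), (∀ u, u ∈ S ↔ s u ∈ S') → v ∈ S → P j v →
      |lr Q S v - lr Q' S' (s v)| ≤ (L / (1 + L)) ^ j * log (1 + L) := by
  induction j with
  | zero =>
    intro S S' v hS hv _
    have a := h.lr_nonneg hv
    have b := h.lr_le hv
    have c := h'.lr_nonneg ((hS v).1 hv)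
    have d := h'.lr_le ((hS v).1 hv)
    rw [abs_le]; constructor <;> simp <;> linarith
  | succ j ih =>
    intro S S' v hS hv hp
    have L0 : 0 ≤ L := (h.X_nonneg S v).trans (h.X_le S v)
    set δ := (L / (1 + L)) ^ j * log (1 + L) with hδ
    have δ0 : 0 ≤ δ := mul_nonneg (by positivity) (log_nonneg (by linarith))
    have hS' : ∀ u, u ∈ S.erase v ↔ s u ∈ S'.erase (s v) := fun u => by
      rw [mem_erase, mem_erase, hS, hs.ne_iff]
    have e : X w' Q' S' (s v) =
        ∑ u ∈ S.erase v, w v u * exp (-lr Q' (S'.erase (s v)) (s u)) := by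
      symm
      refine sum_of_injOn s hs.injOn (fun u hu => (hS' u).1 hu) (fun u' hu' hn => ?_)
        (fun u _ => by rw [hw j v u hp])
      by_contra h0
      obtain ⟨u, rfl⟩ := hr j v u' hp (left_ne_zero_of_mul h0)
      exact hn ⟨u, (hS' u).2 hu', rfl⟩
    have k : ∀ u ∈ S.erase v, w v u ≠ 0 →
        |lr Q (S.erase v) u - lr Q' (S'.erase (s v)) (s u)| ≤ δ :=
      fun u hu h0 => ih _ _ u hS' hu (hP j v u hp h0)
    have k1 : exp (-δ) * X w' Q' S' (s v) ≤ X w Q S v := by
      rw [e, X, mul_sum]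
      refine sum_le_sum fun u hu => ?_
      by_cases h0 : w v u = 0
      · simp [h0]
      · rw [mul_left_comm, ← exp_add]
        exact mul_le_mul_of_nonneg_left (exp_le_exp.2 (by linarith [(abs_le.1 (k u hu h0)).2]))
          (h.nonneg _ _)
    have k2 : exp (-δ) * X w Q S v ≤ X w' Q' S' (s v) := by
      rw [e, X, mul_sum]
      refine sum_le_sum fun u hu => ?_
      by_cases h0 : w v u = 0
      · simp [h0]
      · rw [mul_left_comm, ← exp_add]
        exact mul_le_mul_of_nonneg_left (exp_le_exp.2 (by linarith [(abs_le.1 (k u hu h0)).1]))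
          (h.nonneg _ _)
    have c1 := contract (h.X_nonneg S v) (h'.X_nonneg _ _) (h'.X_le _ _) δ0 k1
    have c2 := contract (h'.X_nonneg _ _) (h.X_nonneg S v) (h.X_le _ _) δ0 k2
    rw [h.lr_eq hv, h'.lr_eq ((hS v).1 hv), pow_succ', mul_assoc, ← hδ, abs_le]
    constructor <;> linarith

theorem tele (h : Rec L w Q) (o : W → ℕ) (ho : Function.Injective o) (S : Finset W) :
    log (Q S) = ∑ v ∈ S, lr Q (S.filter fun u => o v ≤ o u) v := by
  induction S using Finset.induction_on_min_value o with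
  | empty => simp [h.empty]
  | insert a S ha hm ih =>
    rw [sum_insert ha, filter_true_of_mem (s := insert a S) (by simpa using hm), lr,
      erase_insert ha, ih]
    have : ∀ v ∈ S, (insert a S).filter (fun u => o v ≤ o u) = S.filter fun u => o v ≤ o u := by
      intro v hv
      rw [filter_insert, if_neg]
      exact fun hle => ha (ho (le_antisymm (hm v hv) hle) ▸ hv)
    rw [sum_congr rfl fun v hv => congrArg (lr Q · v) (this v hv)]
    ring

/-- Comparison of a system with an `N`-fold cover that is trivial near the good vertices. -/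
theorem cover {N : ℕ} {w' : W × Fin N → W × Fin N → ℝ} {Q' : Finset (W × Fin N) → ℝ}
    (h : Rec L w Q) (h' : Rec L w' Q') (hL : 0 ≤ L) (k : ℕ) (G : Finset W)
    (hG : ∀ v ∈ G, ∀ i : Fin N, ∃ (a : W → Fin N) (P : ℕ → W → Prop), a v = i ∧ P k v ∧
      (∀ j v u, P (j + 1) v → w v u ≠ 0 → P j u) ∧
      (∀ j v u, P (j + 1) v → w' (v, a v) (u, a u) = w v u) ∧
      (∀ j v u', P (j + 1) v → w' (v, a v) u' ≠ 0 → a u'.1 = u'.2)) :
    N * log (Q univ) ≤ log (Q' univ) +
      N * ((Fintype.card W * (L / (1 + L)) ^ k + (Gᶜ).card) * log (1 + L)) := by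
  obtain ⟨o, ho⟩ := Countable.exists_injective_nat W
  have D0 : 0 ≤ log (1 + L) := log_nonneg (by linarith)
  have r0 : 0 ≤ (L / (1 + L)) ^ k := by positivity
  have ho' : Function.Injective fun z : W × Fin N => o z.1 * N + z.2 := by
    rintro ⟨u, i⟩ ⟨v, j⟩ e
    have e1 := congrArg (· / N) e
    have e2 := congrArg (· % N) e
    simp only [Nat.mul_add_mod_of_lt i.2, Nat.mul_add_mod_of_lt j.2] at e2
    simp only [e2, Nat.add_right_cancel_iff] at e
    exact Prod.ext (ho (Nat.eq_of_mul_eq_mul_right i.pos e)) (Fin.ext e2)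
  rw [h.tele o ho, h'.tele _ ho', Fintype.sum_prod_type]
  have key : ∀ v : W, ∀ i : Fin N, lr Q (univ.filter fun u => o v ≤ o u) v ≤
      lr Q' (univ.filter fun z : W × Fin N => o v * N + i ≤ o z.1 * N + z.2) (v, i) +
        ((L / (1 + L)) ^ k + if v ∈ Gᶜ then 1 else 0) * log (1 + L) := by
    intro v i
    by_cases hv : v ∈ G
    · obtain ⟨a, P, rfl, p, h1, h2, h3⟩ := hG v hv i
      have := decay h h' (fun u => (u, a u)) (fun _ _ e => congrArg Prod.fst e) P h1 h2
        (fun j v u' p h0 => ⟨u'.1, Prod.ext rfl (h3 j v u' p h0)⟩) k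
        (univ.filter fun u => o v ≤ o u)
        (univ.filter fun z : W × Fin N => o v * N + a v ≤ o z.1 * N + z.2) v (fun u => by
          simp only [mem_filter, mem_univ, true_and]
          rcases lt_trichotomy (o v) (o u) with c | c | c
          · have := Nat.mul_le_mul_right N (Nat.succ_le_of_lt c)
            have := (a v).2
            simp only [Nat.succ_mul] at *
            omega
          · rw [ho c]; simp
          · have := Nat.mul_le_mul_right N (Nat.succ_le_of_lt c)
            have := (a u).2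
            simp only [Nat.succ_mul] at *
            omega) (by simp) p
      rw [if_neg (by simpa using hv), add_zero]
      linarith [(abs_le.1 this).2]
    · have a := h.lr_le (S := univ.filter fun u => o v ≤ o u) (v := v) (by simp)
      have b := h'.lr_nonneg
        (S := univ.filter fun z : W × Fin N => o v * N + i ≤ o z.1 * N + z.2) (v := (v, i))
        (by simp)
      rw [if_pos (by simpa using hv)]
      nlinarith
  have := sum_le_sum fun v (_ : v ∈ (univ : Finset W)) =>
    sum_le_sum fun i (_ : i ∈ (univ : Finset (Fin N))) => key v i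
  simp only [sum_const, card_univ, Fintype.card_fin, nsmul_eq_mul, sum_add_distrib, ← mul_sum,
    ← sum_mul, sum_ite_mem, univ_inter, mul_one] at this
  exact this

end Rec

end Pool.Agent.MP_94842c_co.Tree

end MrgPart3

-- ======== part 4: formerly Pool.Agent.MP_94842c_co.h42.Gad
section MrgPart4

/-! The gadget: half-edges and two tokens at every vertex. -/

set_option autoImplicit false
set_option linter.unusedSectionVars false

namespace Pool.Agent.MP_94842c_co.Tree

open Finset Sum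

variable {E V : Type} [Fintype E] [DecidableEq E] [Fintype V] [DecidableEq V]

/-- half-edges and tokens -/
abbrev Wt (E V : Type) := (E × Bool) ⊕ (V × Bool)

/-- partition function at a vertex with `k` free half-edges and `t` tokens -/
noncomputable def g (l : ℝ) (k t : ℕ) : ℝ :=
  1 + k * t * l + t * (t - 1) / 2 * (2 * l + k * (k - 1) * l ^ 2)

/-- dimer weights -/
def wt (src : E × Bool → V) (l : ℝ) : Wt E V → Wt E V → ℝ
  | inl d, inl d' => if d' = (d.1, !d.2) then l else 0
  | inl d, inr y => if src d = y.1 then l else 0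
  | inr y, inl d => if src d = y.1 then l else 0
  | inr y, inr y' => if y' = (y.1, !y.2) then 2 * l else 0

/-- free half-edges at `x` -/
def kk (src : E × Bool → V) (S : Finset (Wt E V)) (B : Finset E) (x : V) : ℕ :=
  #{d : E × Bool | inl d ∈ S ∧ d.1 ∉ B ∧ src d = x}

/-- tokens at `x` -/
def tt (S : Finset (Wt E V)) (x : V) : ℕ := #{b : Bool | inr (x, b) ∈ S}

/-- both halves of the edges of `B` are present -/
def Ok (S : Finset (Wt E V)) (B : Finset E) : Prop := ∀ e ∈ B, ∀ b, inl (e, b) ∈ S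

instance (S : Finset (Wt E V)) (B : Finset E) : Decidable (Ok S B) := by
  unfold Ok; infer_instance

/-- product over the vertices -/
noncomputable def Pr (l : ℝ) (k t : V → ℕ) : ℝ := ∏ x, g l (k x) (t x)

/-- one term of the partition function -/
noncomputable def Tm (src : E × Bool → V) (l : ℝ) (S : Finset (Wt E V)) (B : Finset E) : ℝ :=
  if Ok S B then l ^ #B * Pr l (kk src S B) (tt S) else 0

/-- the partition function -/
noncomputable def QQ (src : E × Bool → V) (l : ℝ) (S : Finset (Wt E V)) : ℝ :=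
  ∑ B, Tm src l S B

/-- indicator of a vertex -/
def dl (x y : V) : ℕ := if x = y then 1 else 0

theorem Pr_eq (l : ℝ) (x : V) (k t k' t' : V → ℕ) (h : ∀ y, x ≠ y → k' y = k y ∧ t' y = t y) :
    Pr l k' t' = g l (k' x) (t' x) * ∏ y ∈ univ.erase x, g l (k y) (t y) := by
  rw [Pr, ← mul_prod_erase _ _ (mem_univ x)]
  congr 1
  exact prod_congr rfl fun y hy => by
    rw [(h y (ne_of_mem_erase hy).symm).1, (h y (ne_of_mem_erase hy).symm).2]

theorem Pr_k (l : ℝ) (x : V) (k t : V → ℕ) (h : t x ≤ 2) :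
    Pr l (fun y => k y + dl x y) t = Pr l k t + t x * (l * Pr l k fun y => t y - dl x y) := by
  rw [Pr_eq l x k t _ t (by simp +contextual [dl]), Pr_eq l x k t k t (by simp),
    Pr_eq l x k t k _ (by simp +contextual [dl])]
  simp only [dl, if_true]
  generalize t x = a at h
  interval_cases a <;> simp [g] <;> ring

theorem Pr_t (l : ℝ) (x : V) (k t : V → ℕ) (h : t x ≤ 1) :
    Pr l k (fun y => t y + dl x y) = Pr l k t + (k x * (l * Pr l (fun y => k y - dl x y) t) +
      t x * (2 * l * Pr l k fun y => t y - dl x y)) := by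
  rw [Pr_eq l x k t k _ (by simp +contextual [dl]), Pr_eq l x k t k t (by simp),
    Pr_eq l x k t _ t (by simp +contextual [dl]), Pr_eq l x k t k _ (by simp +contextual [dl])]
  simp only [dl, if_true]
  generalize t x = a at h
  generalize k x = b
  rcases b with _ | b <;> interval_cases a <;> simp [g] <;> ring

variable (src : E × Bool → V) (l : ℝ) {S : Finset (Wt E V)} {B : Finset E}

theorem kk_inr (y : V × Bool) : kk src (S.erase (inr y)) B = kk src S B := by
  funext x; simp [kk]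

theorem tt_inl (d : E × Bool) : tt (S.erase (inl d)) = tt S := by
  funext x; simp [tt]

theorem ok_inr (y : V × Bool) : Ok (S.erase (inr y)) B ↔ Ok S B := by simp [Ok]

theorem ok_inl (d : E × Bool) : Ok (S.erase (inl d)) B ↔ Ok S B ∧ d.1 ∉ B := by
  simp only [Ok, mem_erase, ne_eq, inl.injEq]
  exact ⟨fun h => ⟨fun e he b => (h e he b).2, fun he => (h _ he d.2).1 rfl⟩,
    fun h e he b => ⟨fun c => h.2 (c ▸ he), h.1 e he b⟩⟩

theorem kk_inl {d : E × Bool} (h : inl d ∈ S) (hB : d.1 ∉ B) :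
    kk src S B = fun x => kk src (S.erase (inl d)) B x + dl (src d) x := by
  funext x
  unfold kk dl
  split_ifs with c
  · rw [← card_insert_of_notMem (a := d) (by simp)]
    congr 1; ext d'
    by_cases e : d' = d <;> simp [e, h, hB, c]
  · rw [add_zero]
    congr 1; ext d'
    by_cases e : d' = d <;> simp [e, c]

theorem tt_inr {y : V × Bool} (h : inr y ∈ S) :
    tt S = fun x => tt (S.erase (inr y)) x + dl y.1 x := by
  funext x
  unfold tt dl
  split_ifs with c
  · subst c
    rw [← card_insert_of_notMem (a := y.2) (by simp)]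
    congr 1; ext b
    by_cases e : b = y.2
    · simp [e, h]
    · simp [e, Prod.ext_iff]
  · rw [add_zero]
    congr 1; ext b
    simp [Prod.ext_iff, Ne.symm c]

theorem tt_le (S : Finset (Wt E V)) (x : V) : tt S x ≤ 2 :=
  (card_le_univ _).trans_eq Fintype.card_bool

theorem QQ_split (e : E) (S : Finset (Wt E V)) : QQ src l S =
    ∑ B ∈ (univ.erase e).powerset, (Tm src l S B + Tm src l S (insert e B)) := by
  rw [QQ, ← powerset_univ, ← insert_erase (mem_univ e), sum_powerset_insert (notMem_erase _ _),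
    insert_erase (mem_univ e), sum_add_distrib]

theorem QQ_not {d : E × Bool} (h : inl d ∉ S) :
    QQ src l S = ∑ B ∈ (univ.erase d.1).powerset, Tm src l S B := by
  rw [QQ_split src l d.1]
  refine sum_congr rfl fun B _ => ?_
  rw [Tm.eq_1 _ _ _ (insert _ _), if_neg fun c => h (c _ (mem_insert_self _ _) d.2), add_zero]

theorem step_inl {d : E × Bool} (h : inl d ∈ S) : QQ src l S = QQ src l (S.erase (inl d)) +
    ∑ u ∈ S.erase (inl d), wt src l (inl d) u * QQ src l ((S.erase (inl d)).erase u) := by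
  have n : ∀ u, QQ src l ((S.erase (inl d)).erase u) =
      ∑ B ∈ (univ.erase d.1).powerset, Tm src l ((S.erase (inl d)).erase u) B :=
    fun u => QQ_not src l (by simp)
  rw [QQ_split src l d.1, QQ_not src l (notMem_erase _ _)]
  simp only [n, mul_sum]
  rw [sum_comm, ← sum_add_distrib]
  refine sum_congr rfl fun B hB => ?_
  have hd : d.1 ∉ B := fun c => by simpa using mem_powerset.1 hB c
  rw [← sum_ite_mem_eq, Fintype.sum_sum_type, add_comm (∑ _ : E × Bool, _), ← add_assoc]
  congr 1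
  · have : ∀ y : V × Bool, (if inr y ∈ S.erase (inl d) then wt src l (inl d) (inr y) *
        Tm src l ((S.erase (inl d)).erase (inr y)) B else 0) =
        if y.1 = src d then if inr (src d, y.2) ∈ S then if Ok S B then l ^ #B * (l *
          Pr l (kk src (S.erase (inl d)) B) fun x => tt S x - dl (src d) x) else 0 else 0
          else 0 := by
      rintro ⟨x, b⟩
      by_cases c : x = src d
      · subst c
        by_cases c2 : inr (src d, b) ∈ S
        · have := tt_inr c2
          simp only [mem_erase, ne_eq, reduceCtorEq, not_false_eq_true, c2, and_self, if_true, wt,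
            Tm, ok_inr, ok_inl, hd, and_true, kk_inr]
          rw [erase_right_comm, tt_inl]
          conv_rhs => rw [this]
          simp only [Nat.add_sub_cancel]
          split_ifs <;> ring
        · simp [c2]
      · simp [wt, c, Ne.symm c]
    simp only [this]
    rw [Fintype.sum_prod_type, sum_eq_single (src d) (by simp +contextual) (by simp)]
    simp only [if_true]
    rw [← sum_filter, sum_const, nsmul_eq_mul]
    simp only [Tm, ok_inl, hd, not_false_eq_true, and_true, tt_inl]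
    split_ifs
    · rw [kk_inl src h hd, Pr_k _ _ _ _ (tt_le S _)]
      simp only [tt]; ring
    · simp
  · rw [sum_eq_single (d.1, !d.2) (by simp +contextual [wt]) (by simp)]
    have ne : (d.1, !d.2) ≠ d := fun c => by simpa using congrArg Prod.snd c
    by_cases c : inl (d.1, !d.2) ∈ S
    · have o : Ok S (insert d.1 B) ↔ Ok S B := by
        simp only [Ok, forall_mem_insert, and_iff_right_iff_imp]
        intro _ b
        by_cases e : b = d.2
        · exact e ▸ h
        · rwa [Bool.eq_not_of_ne e]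
      have k : kk src S (insert d.1 B) =
          kk src ((S.erase (inl d)).erase (inl (d.1, !d.2))) B := by
        funext x
        unfold kk
        congr 1; ext ⟨e, b⟩
        by_cases e1 : e = d.1
        · by_cases e2 : b = d.2
          · simp [e1, e2]
          · simp [e1, Bool.eq_not_of_ne e2]
        · simp [e1, Prod.ext_iff]
      simp only [mem_erase, ne_eq, inl.injEq, ne, not_false_eq_true, c, and_self, if_true, wt, Tm,
        o, ok_inl, hd, and_true, tt_inl, k, card_insert_of_notMem hd]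
      split_ifs <;> ring
    · rw [Tm, if_neg fun o => c (o _ (mem_insert_self _ _) _), if_neg (by simp [c])]

theorem step_inr {y : V × Bool} (h : inr y ∈ S) : QQ src l S = QQ src l (S.erase (inr y)) +
    ∑ u ∈ S.erase (inr y), wt src l (inr y) u * QQ src l ((S.erase (inr y)).erase u) := by
  simp only [QQ, mul_sum]
  rw [sum_comm, ← sum_add_distrib]
  refine sum_congr rfl fun B _ => ?_
  rw [← sum_ite_mem_eq, Fintype.sum_sum_type]
  by_cases o : Ok S B
  swap
  · simp [Tm, ok_inr, ok_inl, o]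
  have a : ∀ d : E × Bool, (if inl d ∈ S.erase (inr y) then wt src l (inr y) (inl d) *
      Tm src l ((S.erase (inr y)).erase (inl d)) B else 0) =
      if inl d ∈ S ∧ d.1 ∉ B ∧ src d = y.1 then l ^ #B * (l *
        Pr l (fun x => kk src S B x - dl y.1 x) (tt (S.erase (inr y)))) else 0 := by
    intro d
    by_cases c : inl d ∈ S ∧ d.1 ∉ B ∧ src d = y.1
    · have := kk_inl src c.1 c.2.1
      simp only [mem_erase, ne_eq, reduceCtorEq, not_false_eq_true, c, and_self, if_true, wt,
        Tm, ok_inr, ok_inl, o, tt_inl]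
      rw [erase_right_comm, kk_inr]
      conv_rhs => rw [this]
      simp only [c.2.2, Nat.add_sub_cancel]
      ring
    · rw [if_neg c]
      simp only [not_and_or, not_not] at c
      rcases c with c | c | c <;> simp [c, wt, Tm, ok_inl]
  have ne : (y.1, !y.2) ≠ y := fun c => by simpa using congrArg Prod.snd c
  have t1 : tt (S.erase (inr y)) y.1 = if inr (y.1, !y.2) ∈ S then 1 else 0 := by
    obtain ⟨x, b⟩ := y
    unfold tt
    rw [card_filter, Fintype.sum_bool]
    cases b <;> simp [-sum_boole]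
  simp only [a]
  rw [← sum_filter, sum_const, nsmul_eq_mul,
    sum_eq_single (y.1, !y.2) (by simp +contextual [wt]) (by simp)]
  simp only [Tm, ok_inr, o, if_true, kk_inr, mem_erase, ne_eq, inr.injEq, ne, not_false_eq_true,
    true_and, wt]
  rw [tt_inr h, Pr_t _ _ _ _ (by rw [t1]; split_ifs <;> simp), t1]
  split_ifs with c
  · have := tt_inr (S := S.erase (inr y)) (y := (y.1, !y.2)) (by simp [c, ne])
    conv_lhs => rw [this]
    simp only [Nat.add_sub_cancel, ← this, kk]
    push_cast; ring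
  · simp only [kk]
    push_cast; ring

/-- number of half-edges of `A` at `x` -/
def dg (src : E × Bool → V) (A : Finset E) (x : V) : ℕ := #{d : E × Bool | d.1 ∈ A ∧ src d = x}

theorem rec_QQ (hl : 0 ≤ l) (hd : ∀ x, dg src univ x ≤ 7) :
    Rec (9 * l) (wt src l) (QQ src l) where
  nonneg := by
    rintro (d | y) (d' | y') <;> simp only [wt] <;> split_ifs <;> linarith
  row := by
    rintro (d | y) <;> rw [Fintype.sum_sum_type] <;> simp only [wt]
    · rw [Fintype.sum_prod_type (fun y : V × Bool => if src d = y.1 then l else 0)]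
      simp [sum_add_distrib]; linarith
    · rw [← sum_filter, sum_const, nsmul_eq_mul]
      have : (#{d : E × Bool | src d = y.1} : ℝ) ≤ 7 := by
        have := hd y.1
        simp only [dg, mem_univ, true_and] at this
        exact_mod_cast this
      simp; nlinarith
  empty := by
    rw [QQ, sum_eq_single ∅ (fun B _ hB => ?_) (by simp)]
    · simp [Tm, Ok, Pr, tt, g]
    · obtain ⟨e, he⟩ := nonempty_iff_ne_empty.2 hB
      rw [Tm, if_neg fun c => by simpa using c e he true]
  step := by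
    rintro S (d | y) h
    · exact step_inl src l h
    · exact step_inr src l h

/-- normalised vertex weight -/
noncomputable def ff (μ : ℝ) (k : ℕ) : ℝ := g (μ ^ 2) k 2 / (2 * μ ^ 2 * μ ^ k)

/-- normalised partition function -/
noncomputable def Phi (f : ℕ → ℝ) (src : E × Bool → V) : ℝ := ∑ A, ∏ x, f (dg src A x)

theorem sum_dg (A : Finset E) : ∑ x, dg src A x = 2 * #A := by
  have := card_eq_sum_card_fiberwise (s := A ×ˢ (univ : Finset Bool)) (t := univ) (f := src)
    (by simp)
  rw [card_product, card_univ, Fintype.card_bool, mul_comm] at this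
  rw [this]
  exact sum_congr rfl fun x _ => by unfold dg; congr 1; ext d; simp

theorem QQ_univ {μ : ℝ} (h : 0 < μ) : QQ src (μ ^ 2) univ =
    (μ ^ 2) ^ Fintype.card E * (2 * μ ^ 2) ^ Fintype.card V * Phi (ff μ) src := by
  rw [QQ, Phi, mul_sum]
  refine Fintype.sum_bijective compl compl_involutive.bijective _ _ fun B => ?_
  have k : kk src univ B = dg src Bᶜ := by funext x; simp [kk, dg]
  have t : tt (univ : Finset (Wt E V)) = fun _ => 2 := by funext x; simp [tt]
  rw [Tm, if_pos (by simp [Ok]), k, t, Pr]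
  simp only [ff, prod_div_distrib, prod_mul_distrib, prod_const, card_univ, prod_pow_eq_pow_sum,
    sum_dg]
  rw [← card_add_card_compl B, pow_add, pow_mul μ 2, mul_pow]
  field_simp

end Pool.Agent.MP_94842c_co.Tree

end MrgPart4

-- ======== part 5: formerly Pool.Agent.MP_94842c_co.h42.Ann
section MrgPart5

/-! The average of the partition function over all `N`-fold covers. -/

set_option autoImplicit false
set_option linter.unusedSectionVars false

namespace Pool.Agent.MP_94842c_co.Tree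

open Finset Real
open scoped Nat

theorem fac_lo (n : ℕ) : ((n : ℝ) / exp 1) ^ n ≤ n ! := by
  have := Real.pow_div_factorial_le_exp (n : ℝ) n.cast_nonneg n
  rw [div_le_iff₀ (by positivity)] at this
  rw [div_pow, div_le_iff₀ (by positivity), ← exp_nat_mul, mul_one, mul_comm]
  exact this

theorem fac_hi (n : ℕ) : (n ! : ℝ) ≤ 3 * (n + 1) * ((n : ℝ) / exp 1) ^ n := by
  rcases n with _ | n
  · simp
  have := Stirling.stirlingSeq'_antitone (Nat.zero_le n)
  simp only [Function.comp, Nat.succ_eq_add_one, zero_add, Stirling.stirlingSeq_one] at this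
  rw [Stirling.stirlingSeq, div_le_iff₀ (by positivity), ← mul_assoc] at this
  refine this.trans (mul_le_mul_of_nonneg_right ?_ (by positivity))
  rw [Real.sqrt_mul (by norm_num), ← mul_assoc, div_mul_cancel₀ _ (by positivity)]
  refine mul_le_mul (exp_one_lt_d9.le.trans (by norm_num)) ?_ (by positivity) (by norm_num)
  rw [Real.sqrt_le_left (by positivity)]
  nlinarith [(n + 1).cast_nonneg (α := ℝ)]

theorem fac_two {a N : ℕ} (h : a ≤ N) : (a ! * (N - a)! : ℝ) ≤
    N ! * (9 * (N + 1) ^ 2) * (((a : ℝ) / N) ^ a * (1 - (a : ℝ) / N) ^ (N - a)) := by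
  obtain ⟨b, rfl⟩ := Nat.exists_eq_add_of_le h
  rcases Nat.eq_zero_or_pos (a + b) with h0 | h0
  · obtain ⟨rfl, rfl⟩ := Nat.add_eq_zero_iff.1 h0
    simp
  have p : (0 : ℝ) < (a + b : ℕ) := by exact_mod_cast h0
  have e : 1 - (a : ℝ) / (a + b : ℕ) = b / (a + b : ℕ) := by field_simp; push_cast; ring
  rw [Nat.add_sub_cancel_left, e]
  have k : ((a : ℝ) / exp 1) ^ a * ((b : ℝ) / exp 1) ^ b = (((a + b : ℕ) : ℝ) / exp 1) ^ (a + b) *
      (((a : ℝ) / (a + b : ℕ)) ^ a * ((b : ℝ) / (a + b : ℕ)) ^ b) := by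
    rw [pow_add, mul_mul_mul_comm, ← mul_pow, ← mul_pow]
    congr 2 <;> field_simp
  calc (a ! * b ! : ℝ) ≤ (3 * (a + 1) * ((a : ℝ) / exp 1) ^ a) *
        (3 * (b + 1) * ((b : ℝ) / exp 1) ^ b) :=
        mul_le_mul (fac_hi a) (fac_hi b) (by positivity) (by positivity)
    _ = (((a + b : ℕ) : ℝ) / exp 1) ^ (a + b) * (9 * ((a + 1) * (b + 1))) *
        (((a : ℝ) / (a + b : ℕ)) ^ a * ((b : ℝ) / (a + b : ℕ)) ^ b) := by
        rw [mul_mul_mul_comm, k]; ring
    _ ≤ _ := by
        refine mul_le_mul_of_nonneg_right (mul_le_mul (fac_lo _) ?_ (by positivity)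
          (by positivity)) (by positivity)
        push_cast
        nlinarith [a.cast_nonneg (α := ℝ), b.cast_nonneg (α := ℝ)]

theorem perm_card {N : ℕ} (Y Z : Finset (Fin N)) :
    (#{σ : Equiv.Perm (Fin N) | ∀ i, i ∈ Y ↔ σ i ∈ Z} : ℝ) ≤ N ! * (9 * (N + 1) ^ 2) *
      ((√((#Y : ℝ) / N) ^ #Y * √(1 - (#Y : ℝ) / N) ^ (N - #Y)) *
        (√((#Y : ℝ) / N) ^ #Z * √(1 - (#Y : ℝ) / N) ^ (N - #Z))) := by
  rcases ({σ : Equiv.Perm (Fin N) | ∀ i, i ∈ Y ↔ σ i ∈ Z} : Finset _).eq_empty_or_nonempty with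
    h | ⟨σ, h⟩
  · rw [h, card_empty, Nat.cast_zero]; positivity
  have hσ : ∀ i, i ∈ Y ↔ σ i ∈ Z := by simpa using h
  have hY : #Y ≤ N := (card_le_univ _).trans_eq (Fintype.card_fin N)
  have e : #Z = #Y := (card_equiv σ hσ).symm
  have u : (0 : ℝ) ≤ 1 - (#Y : ℝ) / N :=
    sub_nonneg.2 (div_le_one_of_le₀ (by exact_mod_cast hY) N.cast_nonneg)
  rw [e, mul_mul_mul_comm (_ ^ #Y), ← mul_pow, ← mul_pow, mul_self_sqrt (by positivity), mul_self_sqrt u]
  refine le_trans ?_ (fac_two hY)
  rw [← Fintype.card_subtype]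
  have := Fintype.card_le_of_injective
    (α := {σ : Equiv.Perm (Fin N) // ∀ i, i ∈ Y ↔ σ i ∈ Z})
    (β := ({i // i ∈ Y} ≃ {i // i ∈ Z}) × ({i // i ∉ Y} ≃ {i // i ∉ Z}))
    (fun τ => (τ.1.subtypeEquiv τ.2, τ.1.subtypeEquiv fun i => (τ.2 i).not)) (by
      intro τ τ' h
      refine Subtype.ext (Equiv.ext fun i => ?_)
      by_cases hi : i ∈ Y
      · exact congrArg (fun z => (z.1 ⟨i, hi⟩).1) h
      · exact congrArg (fun z => (z.2 ⟨i, hi⟩).1) h)
  rw [Fintype.card_prod, Fintype.card_equiv (σ.subtypeEquiv hσ),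
    Fintype.card_equiv (σ.subtypeEquiv fun i => (hσ i).not), Fintype.card_subtype_compl,
    Fintype.card_coe, Fintype.card_fin] at this
  exact_mod_cast this

variable {E V : Type} [Fintype E] [DecidableEq E] [Fintype V] [DecidableEq V]

/-- the cover given by one permutation for each edge -/
def lift {N : ℕ} (src : E × Bool → V) (ρ : E → Equiv.Perm (Fin N)) :
    (E × Fin N) × Bool → V × Fin N :=
  fun z => (src (z.1.1, z.2), if z.2 then ρ z.1.1 z.1.2 else z.1.2)

/-- number of half-edges of `J` at `x` -/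
def cnt (src : E × Bool → V) (J : Finset (E × Bool)) (x : V) : ℕ := #{d ∈ J | src d = x}

/-- index of the copy of the edge that carries the half-edge `d` at level `i` -/
def idx {N : ℕ} (ρ : E → Equiv.Perm (Fin N)) (d : E × Bool) (i : Fin N) : Fin N :=
  if d.2 then (ρ d.1).symm i else i

/-- the half-edges of `A` at level `i` -/
def half {N : ℕ} (ρ : E → Equiv.Perm (Fin N)) (A : Finset (E × Fin N)) (i : Fin N) :
    Finset (E × Bool) := {d | (d.1, idx ρ d i) ∈ A}

theorem mem_half {N : ℕ} {ρ : E → Equiv.Perm (Fin N)} {A : Finset (E × Fin N)} {i : Fin N}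
    {d : E × Bool} : d ∈ half ρ A i ↔ (d.1, idx ρ d i) ∈ A :=
  mem_filter.trans (and_iff_right (mem_univ _))

theorem dg_lift {N : ℕ} (src : E × Bool → V) (ρ : E → Equiv.Perm (Fin N))
    (A : Finset (E × Fin N)) (z : V × Fin N) :
    dg (lift src ρ) A z = cnt src (half ρ A z.2) z.1 := by
  symm
  refine card_nbij' (fun d => ((d.1, idx ρ d z.2), d.2)) (fun y => (y.1.1, y.2)) ?_ ?_ ?_ ?_
  · rintro ⟨e, b⟩ h
    cases b <;> simpa [lift, idx, Prod.ext_iff, mem_half] using h
  · rintro ⟨⟨e, i⟩, b⟩ h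
    obtain ⟨x, j⟩ := z
    simp only [coe_filter, mem_univ, true_and, Set.mem_ofPred_eq, lift, Prod.mk.injEq] at h
    obtain ⟨h1, rfl, rfl⟩ := h
    cases b <;> simpa [idx, mem_half] using h1
  · intro d _; rfl
  · rintro ⟨⟨e, i⟩, b⟩ h
    obtain ⟨x, j⟩ := z
    simp only [coe_filter, mem_univ, true_and, Set.mem_ofPred_eq, lift, Prod.mk.injEq] at h
    obtain ⟨h1, rfl, rfl⟩ := h
    cases b <;> simp [idx]

theorem annealed (src : E × Bool → V) (f : ℕ → ℝ) (hf : ∀ k, 0 ≤ f k) {Ψ : ℝ}
    (hΨ : ∀ p q : E × Bool → ℝ, (∀ d, 0 ≤ p d) → (∀ d, 0 ≤ q d) → (∀ d, p d ^ 2 + q d ^ 2 = 1) →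
      ∑ J : Finset (E × Bool), (∏ x, f (cnt src J x)) * ∏ d, (if d ∈ J then p d else q d) ≤ Ψ)
    (N : ℕ) : ∑ ρ : E → Equiv.Perm (Fin N), Phi f (lift src ρ) ≤
      (N ! * (9 * (N + 1) ^ 3)) ^ Fintype.card E * Ψ ^ N := by
  set w : (Fin N → Finset (E × Bool)) → ℝ := fun X => ∏ i, ∏ x, f (cnt src (X i) x) with hw
  have w0 : ∀ X, 0 ≤ w X := fun X => prod_nonneg fun _ _ => prod_nonneg fun _ _ => hf _
  set row : (Fin N → Finset (E × Bool)) → E × Bool → Finset (Fin N) :=
    fun X d => {i | d ∈ X i} with hrow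
  have s1 : ∀ ρ : E → Equiv.Perm (Fin N), Phi f (lift src ρ) ≤
      ∑ X, if ∀ e i, i ∈ row X (e, false) ↔ ρ e i ∈ row X (e, true) then w X else 0 := by
    intro ρ
    rw [← sum_filter, Phi]
    have inj : Set.InjOn (half ρ) (univ : Finset (Finset (E × Fin N))) := fun A _ B _ h => by
      ext ⟨e, i⟩
      simpa [idx, mem_half] using Finset.ext_iff.1 (congrFun h i) (e, false)
    refine le_trans (le_of_eq ?_) ((sum_image (f := w) inj).symm.le.trans
      (sum_le_sum_of_subset_of_nonneg ?_ fun X _ _ => w0 X))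
    · simp only [dg_lift, hw]
      exact sum_congr rfl fun A _ => Fintype.prod_prod_type_right _
    · intro X hX
      obtain ⟨A, -, rfl⟩ := mem_image.1 hX
      simp [hrow, idx, mem_half]
  set p : (E → Fin (N + 1)) → E × Bool → ℝ := fun a d => √((a d.1 : ℝ) / N) with hp
  set q : (E → Fin (N + 1)) → E × Bool → ℝ := fun a d => √(1 - (a d.1 : ℝ) / N) with hq
  have s2 : ∀ X, (#{ρ : E → Equiv.Perm (Fin N) |
      ∀ e i, i ∈ row X (e, false) ↔ ρ e i ∈ row X (e, true)} : ℝ) ≤
      (N ! * (9 * (N + 1) ^ 2)) ^ Fintype.card E *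
        ∑ a, ∏ i, ∏ d, if d ∈ X i then p a d else q a d := by
    intro X
    have e1 : ({ρ : E → Equiv.Perm (Fin N) |
        ∀ e i, i ∈ row X (e, false) ↔ ρ e i ∈ row X (e, true)} : Finset _) =
        Fintype.piFinset fun e => {σ : Equiv.Perm (Fin N) |
          ∀ i, i ∈ row X (e, false) ↔ σ i ∈ row X (e, true)} := by
      ext ρ; simp only [mem_filter, mem_univ, true_and, Fintype.mem_piFinset]
    rw [e1, Fintype.card_piFinset, Nat.cast_prod]
    refine (prod_le_prod (fun _ _ => by positivity) fun e _ => perm_card _ _).trans ?_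
    rw [prod_mul_distrib, prod_const, card_univ]
    refine mul_le_mul_of_nonneg_left (le_trans (le_of_eq ?_) (single_le_sum (fun a _ =>
      prod_nonneg fun _ _ => prod_nonneg fun _ _ => by split_ifs <;> positivity)
      (mem_univ fun e => ⟨#(row X (e, false)),
        Nat.lt_succ_of_le ((card_le_univ _).trans_eq (Fintype.card_fin N))⟩))) (by positivity)
    rw [prod_comm, Fintype.prod_prod_type]
    refine prod_congr rfl fun e _ => ?_
    have : ∀ d, #{i : Fin N | d ∉ X i} = N - #(row X d) := fun d => by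
      rw [← compl_filter, card_compl, Fintype.card_fin]
    rw [Fintype.prod_bool, mul_comm]
    simp only [prod_ite, prod_const, this, hp, hq, hrow]
  have s3 : ∀ a, ∑ X, w X * ∏ i, ∏ d, (if d ∈ X i then p a d else q a d) ≤ Ψ ^ N := by
    intro a
    have u : ∀ d : E × Bool, (0 : ℝ) ≤ 1 - (a d.1 : ℝ) / N := fun d => sub_nonneg.2
      (div_le_one_of_le₀ (by exact_mod_cast Nat.le_of_lt_succ (a d.1).2) N.cast_nonneg)
    refine le_trans (le_of_eq ?_) (pow_le_pow_left₀ (sum_nonneg fun _ _ => mul_nonneg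
      (prod_nonneg fun _ _ => hf _) (prod_nonneg fun _ _ => by split_ifs <;> positivity))
      (hΨ (p a) (q a) (fun _ => by positivity) (fun _ => by positivity) fun d => by
        rw [sq_sqrt (by positivity), sq_sqrt (u d)]; ring) N)
    rw [Fintype.sum_pow]
    simp only [hw, prod_mul_distrib]
  calc _ ≤ _ := sum_le_sum fun ρ _ => s1 ρ
    _ = ∑ X, (#{ρ : E → Equiv.Perm (Fin N) |
        ∀ e i, i ∈ row X (e, false) ↔ ρ e i ∈ row X (e, true)} : ℝ) * w X := by
        rw [sum_comm]
        exact sum_congr rfl fun X _ => by rw [← sum_filter, sum_const, nsmul_eq_mul]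
    _ ≤ _ := sum_le_sum fun X _ => mul_le_mul_of_nonneg_right (s2 X) (w0 X)
    _ = (N ! * (9 * (N + 1) ^ 2)) ^ Fintype.card E *
        ∑ a, ∑ X, w X * ∏ i, ∏ d, (if d ∈ X i then p a d else q a d) := by
        rw [sum_comm, mul_sum]
        exact sum_congr rfl fun X _ => by rw [← mul_sum]; ring
    _ ≤ (N ! * (9 * (N + 1) ^ 2)) ^ Fintype.card E * ∑ _ : E → Fin (N + 1), Ψ ^ N :=
        mul_le_mul_of_nonneg_left (sum_le_sum fun a _ => s3 a) (by positivity)
    _ = _ := by
        rw [sum_const, card_univ, Fintype.card_fun, Fintype.card_fin, nsmul_eq_mul, ← mul_assoc]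
        push_cast
        rw [← mul_pow]
        congr 2; ring

end Pool.Agent.MP_94842c_co.Tree

end MrgPart5

-- ======== part 6: formerly Pool.Agent.MP_94842c_co.h42.Vert
section MrgPart6

/-! The inequality at one vertex. -/

set_option autoImplicit false
set_option linter.unusedSectionVars false

namespace Pool.Agent.MP_94842c_co.Tree

open Finset Real

section
variable {ι : Type} [DecidableEq ι]

/-- symmetric multilinear form with coefficients `c` -/
noncomputable def Fv (c : ℕ → ℝ) (D : Finset ι) (p q : ι → ℝ) : ℝ :=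
  ∑ K ∈ D.powerset, c #K * ∏ d ∈ D, if d ∈ K then p d else q d

theorem Fv_nonneg {c : ℕ → ℝ} (hc : ∀ k, 0 ≤ c k) (D : Finset ι) {p q : ι → ℝ}
    (hp : ∀ d ∈ D, 0 ≤ p d) (hq : ∀ d ∈ D, 0 ≤ q d) : 0 ≤ Fv c D p q :=
  sum_nonneg fun _ _ => mul_nonneg (hc _) (prod_nonneg fun d hd => by
    split_ifs; exacts [hp d hd, hq d hd])

theorem Fv_congr (c : ℕ → ℝ) (D : Finset ι) {p q p' q' : ι → ℝ} (hp : ∀ d ∈ D, p d = p' d)
    (hq : ∀ d ∈ D, q d = q' d) : Fv c D p q = Fv c D p' q' :=
  sum_congr rfl fun _ _ => congrArg _ (prod_congr rfl fun d hd => by rw [hp d hd, hq d hd])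

theorem Fv_insert (c : ℕ → ℝ) {D : Finset ι} {i : ι} (hi : i ∉ D) (p q : ι → ℝ) :
    Fv c (insert i D) p q = q i * Fv c D p q + p i * Fv (fun k => c (k + 1)) D p q := by
  simp only [Fv, sum_powerset_insert hi, prod_insert hi, mul_sum]
  congr 1 <;> refine sum_congr rfl fun K hK => ?_
  · rw [if_neg (notMem_mono (mem_powerset.1 hK) hi)]; ring
  · rw [if_pos (mem_insert_self _ _), card_insert_of_notMem (notMem_mono (mem_powerset.1 hK) hi),
      prod_congr rfl fun d hd => if_congr (Q := d ∈ K)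
        (by simp [show d ≠ i from fun e => hi (e ▸ hd)]) rfl rfl]
    ring

theorem Fv_smooth {c : ℕ → ℝ} (hc : ∀ k, 0 ≤ c k) (D : Finset ι) (μ : ℝ) (n : ℕ) :
    ∀ θ : ι → ℝ, #{d ∈ D | θ d ≠ μ} ≤ n → (∀ d ∈ D, 0 ≤ θ d ∧ θ d ≤ π / 2) →
      ∑ d ∈ D, (θ d - μ) = 0 → Fv c D (fun d => sin (θ d)) (fun d => cos (θ d)) ≤
        Fv c D (fun _ => sin μ) fun _ => cos μ := by
  induction n with
  | zero =>
    intro θ h _ _
    have : ∀ d ∈ D, θ d = μ := by simpa using h
    exact (Fv_congr c D (fun d hd => by rw [this d hd]) fun d hd => by rw [this d hd]).le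
  | succ n ih =>
    intro θ h hb hs
    by_cases h0 : ∀ d ∈ D, θ d = μ
    · exact (Fv_congr c D (fun d hd => by rw [h0 d hd]) fun d hd => by rw [h0 d hd]).le
    obtain ⟨i, hi, i1⟩ : ∃ i ∈ D, θ i < μ := by
      by_contra! u
      exact h0 fun d hd => sub_eq_zero.1
        ((sum_eq_zero_iff_of_nonneg fun d hd => sub_nonneg.2 (u d hd)).1 hs d hd)
    obtain ⟨j, hj, j1⟩ : ∃ j ∈ D, μ < θ j := by
      by_contra! u
      exact h0 fun d hd => sub_eq_zero.1
        ((sum_eq_zero_iff_of_nonpos fun d hd => sub_nonpos.2 (u d hd)).1 hs d hd)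
    have ij : i ≠ j := fun e => by rw [e] at i1; linarith
    obtain ⟨D', rfl, n1, n2⟩ : ∃ D', D = insert i (insert j D') ∧ i ∉ insert j D' ∧ j ∉ D' :=
      ⟨(D.erase i).erase j, by rw [insert_erase (mem_erase.2 ⟨ij.symm, hj⟩), insert_erase hi],
        by simp [ij], by simp⟩
    set θ' : ι → ℝ := fun d => if d = i then μ else if d = j then θ i + θ j - μ else θ d with hθ
    have a1 : θ' i = μ := by simp [hθ]
    have a2 : θ' j = θ i + θ j - μ := by simp [hθ, ij.symm]
    have a3 : ∀ d ∈ D', θ' d = θ d := fun d hd => by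
      simp [hθ, show d ≠ i from fun e => n1 (e ▸ mem_insert_of_mem hd),
        show d ≠ j from fun e => n2 (e ▸ hd)]
    have b1 := hb i hi
    have b2 := hb j hj
    have b3 : ∀ d ∈ D', 0 ≤ θ d ∧ θ d ≤ π / 2 :=
      fun d hd => hb d (mem_insert_of_mem (mem_insert_of_mem hd))
    refine le_trans ?_ (ih θ' ?_ ?_ ?_)
    · have s0 : ∀ d ∈ D', 0 ≤ sin (θ d) := fun d hd =>
        sin_nonneg_of_nonneg_of_le_pi (b3 d hd).1 (by linarith [(b3 d hd).2, pi_pos])
      have c0 : ∀ d ∈ D', 0 ≤ cos (θ d) := fun d hd =>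
        cos_nonneg_of_neg_pi_div_two_le_of_le (by linarith [(b3 d hd).1, pi_pos]) (b3 d hd).2
      have e : ∀ c, Fv c D' (fun d => sin (θ' d)) (fun d => cos (θ' d)) =
          Fv c D' (fun d => sin (θ d)) (fun d => cos (θ d)) := fun c =>
        Fv_congr c D' (fun d hd => by rw [a3 d hd]) fun d hd => by rw [a3 d hd]
      simp only [Fv_insert _ n1, Fv_insert _ n2, e]
      have A := Fv_nonneg hc D' s0 c0
      have C := Fv_nonneg (c := fun k => c (k + 1 + 1)) (fun _ => hc _) D' s0 c0
      have k1 : cos (θ j - θ i) ≤ cos (θ' j - θ' i) := by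
        rw [← cos_abs (θ' j - θ' i)]
        refine cos_le_cos_of_nonneg_of_le_pi (abs_nonneg _) (by linarith [pi_pos]) ?_
        rw [a1, a2, abs_le]; constructor <;> linarith
      have k2 : θ' i + θ' j = θ i + θ j := by rw [a1, a2]; ring
      have k3 := congrArg cos k2
      have k4 := congrArg sin k2
      rw [cos_sub, cos_sub] at k1
      rw [cos_add, cos_add] at k3
      rw [sin_add, sin_add] at k4
      have m1 := mul_le_mul_of_nonneg_right
        (show cos (θ i) * cos (θ j) ≤ cos (θ' i) * cos (θ' j) by linarith) A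
      have m2 := mul_le_mul_of_nonneg_right
        (show sin (θ i) * sin (θ j) ≤ sin (θ' i) * sin (θ' j) by linarith) C
      have m3 := congrArg (· * Fv (fun k => c (k + 1)) D' (fun d => sin (θ d))
        fun d => cos (θ d)) k4
      linarith
    · refine Nat.le_of_lt_succ (lt_of_lt_of_le (card_lt_card ⟨fun d hd => ?_, fun u => ?_⟩) h)
      · simp only [mem_filter, mem_insert] at hd ⊢
        rcases hd with ⟨rfl | rfl | hd, u⟩
        · exact absurd a1 u
        · exact ⟨by simp, j1.ne'⟩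
        · exact ⟨by simp [hd], a3 d hd ▸ u⟩
      · exact (mem_filter.1 (u (mem_filter.2 ⟨hi, i1.ne⟩))).2 a1
    · simp only [forall_mem_insert, a1, a2]
      exact ⟨⟨by linarith, by linarith⟩, ⟨by linarith, by linarith⟩,
        fun d hd => a3 d hd ▸ b3 d hd⟩
    · rw [sum_insert n1, sum_insert n2] at hs ⊢
      rw [a1, a2, sum_congr rfl fun d hd => by rw [a3 d hd]]
      linarith

theorem Fv_const (c : ℕ → ℝ) (D : Finset ι) (p q : ℝ) : Fv c D (fun _ => p) (fun _ => q) =
    ∑ k ∈ range (#D + 1), (#D).choose k * (c k * (p ^ k * q ^ (#D - k))) := by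
  rw [← sum_congr rfl fun k _ => nsmul_eq_mul _ _, ← sum_powerset_apply_card]
  refine sum_congr rfl fun K hK => ?_
  rw [prod_ite, prod_const, prod_const, filter_mem_eq_inter, inter_eq_right.2 (mem_powerset.1 hK),
    filter_notMem_eq_sdiff, card_sdiff_of_subset (mem_powerset.1 hK)]

end

/-- square root of the growth rate -/
noncomputable def gm : ℝ := √(5 / 7 ^ (2 / 3 : ℝ))

theorem gm_sq : gm ^ 2 = 5 / 7 ^ (2 / 3 : ℝ) := sq_sqrt (by positivity)

theorem gm_six : gm ^ 6 = 125 / 49 := by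
  rw [show gm ^ 6 = (gm ^ 2) ^ 3 by ring, gm_sq, div_pow, ← rpow_natCast (_ ^ _), ← rpow_mul
    (by norm_num)]
  norm_num

theorem gm_ge : 1.1689 ≤ gm :=
  le_of_pow_le_pow_left₀ (n := 6) (by norm_num) (sqrt_nonneg _) (by rw [gm_six]; norm_num)

/-- degree zero or two -/
def c02 (k : ℕ) : ℝ := if k = 0 ∨ k = 2 then 1 else 0

theorem diag {n : ℕ} (hn : n ≤ 7) {p q : ℝ} (hq : 0 ≤ q) (h : p ^ 2 + q ^ 2 = 1) :
    ∑ k ∈ range (n + 1), (n.choose k : ℝ) * (c02 k * (p ^ k * q ^ (n - k))) ≤ gm ^ n := by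
  have e : p ^ 2 = 1 - q ^ 2 := by linarith
  have q1 : q ^ 2 ≤ 1 := by nlinarith
  have q2 : q ≤ 1 := by nlinarith
  have g := fun k => pow_le_pow_left₀ (by norm_num) gm_ge k
  have s0 := sq_nonneg q
  interval_cases n <;> simp [sum_range_succ, c02, Nat.choose, e]
  · linarith [gm_ge]
  · exact le_trans (by norm_num) (gm_ge.trans (le_abs_self _))
  · nlinarith [g 3, mul_nonneg hq (sq_nonneg (q - 0.7)), sq_nonneg (q - 0.7)]
  · nlinarith [g 4, sq_nonneg (q ^ 2 - 0.6)]
  · refine le_trans (le_of_sq_le_sq ?_ (by norm_num)) (g 5)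
    obtain ⟨s, hs⟩ : ∃ s, s = q ^ 2 := ⟨_, rfl⟩
    rw [show (q ^ 5 + 10 * ((1 - q ^ 2) * q ^ 3)) ^ 2 = s ^ 3 * (10 - 9 * s) ^ 2 by rw [hs]; ring]
    rw [← hs] at q1 s0
    have : 0 ≤ -81 * s ^ 3 + 72 * s ^ 2 + 32 * s + 32 / 3 := by
      nlinarith [mul_nonneg s0 (sub_nonneg.2 q1), mul_nonneg (sq_nonneg s) (sub_nonneg.2 q1)]
    nlinarith [mul_nonneg (sq_nonneg (s - 2 / 3)) this]
  · rw [gm_six]
    nlinarith [mul_nonneg (sq_nonneg (q ^ 2 - 5 / 7)) (show 0 ≤ 14 * q ^ 2 + 5 by positivity)]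
  · refine le_trans (le_of_sq_le_sq ?_ (by norm_num)) (g 7)
    obtain ⟨s, hs⟩ : ∃ s, s = q ^ 2 := ⟨_, rfl⟩
    rw [show (q ^ 7 + 21 * ((1 - q ^ 2) * q ^ 5)) ^ 2 = s ^ 5 * (21 - 20 * s) ^ 2 by rw [hs]; ring]
    rw [← hs] at q1 s0
    have : 0 ≤ -400 * s ^ 5 + 240 * s ^ 4 + 144 * s ^ 3 + 81 * s ^ 2 + 81 / 2 * s + 243 / 16 := by
      nlinarith [mul_nonneg (pow_nonneg s0 4) (sub_nonneg.2 q1),
        mul_nonneg (pow_nonneg s0 3) (sub_nonneg.2 q1),
        mul_nonneg (pow_nonneg s0 2) (sub_nonneg.2 q1), pow_nonneg s0 5]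
    nlinarith [mul_nonneg (sq_nonneg (s - 3 / 4)) this]

theorem Fv_le {ι : Type} [DecidableEq ι] {D : Finset ι} (hD : #D ≤ 7) {p q : ι → ℝ}
    (hp : ∀ d, 0 ≤ p d) (hq : ∀ d, 0 ≤ q d) (h : ∀ d, p d ^ 2 + q d ^ 2 = 1) :
    Fv c02 D p q ≤ gm ^ #D := by
  rcases D.eq_empty_or_nonempty with rfl | hne
  · simp [Fv, c02, -sum_boole]
  have p1 : ∀ d, p d ≤ 1 := fun d => by nlinarith [h d, hp d]
  have n0 : (0 : ℝ) < #D := by exact_mod_cast hne.card_pos
  have := Fv_smooth (c := c02) (fun k => by unfold c02; split_ifs <;> norm_num) D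
    ((∑ d ∈ D, arcsin (p d)) / #D) _ (fun d => arcsin (p d)) le_rfl
    (fun d _ => ⟨arcsin_nonneg.2 (hp d), arcsin_le_pi_div_two _⟩)
    (by rw [sum_sub_distrib, sum_const, nsmul_eq_mul]; field_simp; ring)
  rw [Fv_const] at this
  refine le_trans (Fv_congr _ _ (fun d _ => ?_) fun d _ => ?_).le
    (this.trans (diag hD (cos_nonneg_of_neg_pi_div_two_le_of_le ?_ ?_) (sin_sq_add_cos_sq _)))
  · rw [sin_arcsin (by linarith [hp d]) (p1 d)]
  · rw [cos_arcsin, ← h d, add_sub_cancel_left, sqrt_sq (hq d)]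
  · exact le_trans (by linarith [pi_pos])
      (div_nonneg (sum_nonneg fun d _ => arcsin_nonneg.2 (hp d)) n0.le)
  · rw [div_le_iff₀ n0, mul_comm, ← nsmul_eq_mul]
    exact sum_le_card_nsmul _ _ _ fun d _ => arcsin_le_pi_div_two _

variable {E V : Type} [Fintype E] [DecidableEq E] [Fintype V] [DecidableEq V]

theorem bethe (src : E × Bool → V) (hs : Function.Surjective src) (hd : ∀ x, dg src univ x ≤ 7)
    {f : ℕ → ℝ} (hf : ∀ k, 0 ≤ f k) {ε : ℝ} (hε : 0 ≤ ε) (h : ∀ k ≤ 7, f k ≤ c02 k + ε)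
    (p q : E × Bool → ℝ) (hp : ∀ d, 0 ≤ p d) (hq : ∀ d, 0 ≤ q d)
    (h1 : ∀ d, p d ^ 2 + q d ^ 2 = 1) :
    ∑ J : Finset (E × Bool), (∏ x, f (cnt src J x)) * ∏ d, (if d ∈ J then p d else q d) ≤
      (gm * (1 + 128 * ε)) ^ (2 * Fintype.card E) := by
  set D : V → Finset (E × Bool) := fun x => {d | src d = x} with hD
  have e : ∀ x, dg src univ x = #(D x) := fun x => by simp [dg, hD]
  have t0 : ∀ (x : V) (K : Finset (E × Bool)), 0 ≤ ∏ d ∈ D x, if d ∈ K then p d else q d :=
    fun x K => prod_nonneg fun d _ => by split_ifs; exacts [hp d, hq d]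
  have s1 : ∑ J : Finset (E × Bool), (∏ x, f (cnt src J x)) * ∏ d, (if d ∈ J then p d else q d)
      ≤ ∏ x, Fv f (D x) p q := by
    simp only [Fv]
    rw [prod_univ_sum]
    have inj : Set.InjOn (fun (J : Finset (E × Bool)) (x : V) => J.filter fun d => src d = x)
        (univ : Finset (Finset (E × Bool))) := fun A _ B _ h => by
      ext d
      simpa using Finset.ext_iff.1 (congrFun h (src d)) d
    refine le_trans (le_of_eq ?_) ((sum_image (f := fun K : V → Finset (E × Bool) =>
      ∏ x, f #(K x) * ∏ d ∈ D x, if d ∈ K x then p d else q d) inj).symm.le.trans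
      (sum_le_sum_of_subset_of_nonneg ?_ fun K _ _ =>
        prod_nonneg fun x _ => mul_nonneg (hf _) (t0 x _)))
    · refine sum_congr rfl fun J _ => ?_
      rw [prod_mul_distrib, ← prod_fiberwise univ src]
      congr 1
      exact prod_congr rfl fun x _ => prod_congr rfl fun d hd =>
        if_congr (by simp [(mem_filter.1 hd).2]) rfl rfl
    · intro K hK
      obtain ⟨A, -, rfl⟩ := mem_image.1 hK
      exact Fintype.mem_piFinset.2 fun x =>
        mem_powerset.2 (filter_subset_filter _ (subset_univ _))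
  have g1 : 1 ≤ gm := le_trans (by norm_num) gm_ge
  refine s1.trans ((prod_le_prod (g := fun x => (gm * (1 + 128 * ε)) ^ dg src univ x)
    (fun x _ => Fv_nonneg hf _ (fun d _ => hp d) fun d _ => hq d) fun x _ => ?_).trans_eq ?_)
  · have d7 := e x ▸ hd x
    obtain ⟨d, hd⟩ := hs x
    have d1 : #(D x) ≠ 0 := card_ne_zero.2 ⟨d, by simp [hD, hd]⟩
    have s2 : Fv f (D x) p q ≤ Fv c02 (D x) p q + ∑ _ ∈ (D x).powerset, ε := by
      rw [Fv, Fv, ← sum_add_distrib]
      refine sum_le_sum fun K hK => (mul_le_mul_of_nonneg_right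
        (h _ ((card_le_card (mem_powerset.1 hK)).trans d7)) (t0 x K)).trans ?_
      rw [add_mul]
      refine add_le_add_right (mul_le_of_le_one_right hε (prod_le_one (fun d _ => ?_)
        fun d _ => ?_)) _
      · split_ifs; exacts [hp d, hq d]
      · split_ifs <;> nlinarith [h1 d, hp d, hq d]
    rw [sum_const, card_powerset, nsmul_eq_mul] at s2
    have s3 : ((2 ^ #(D x) : ℕ) : ℝ) ≤ 128 := by
      exact_mod_cast Nat.pow_le_pow_right (by norm_num) d7
    have s4 := Fv_le d7 hp hq h1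
    have s5 := one_le_pow₀ (n := #(D x)) g1
    have s6 := le_self_pow₀ (show 1 ≤ 1 + 128 * ε by linarith) d1
    simp only [e, mul_pow]
    nlinarith [mul_le_mul_of_nonneg_right s3 hε, mul_le_mul_of_nonneg_left s6 (zero_le_one.trans s5),
      mul_le_mul_of_nonneg_left s5 hε]
  · rw [prod_pow_eq_pow_sum, sum_dg, card_univ]

end Pool.Agent.MP_94842c_co.Tree

end MrgPart6

-- ======== part 7: formerly Pool.Agent.MP_94842c_co.h42.Up
section MrgPart7

/-! The upper bound for multigraphs whose covers are trivial near most vertices. -/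

set_option autoImplicit false
set_option linter.unusedSectionVars false

namespace Pool.Agent.MP_94842c_co.Tree

open Finset Real Sum Filter Topology
open scoped Nat

theorem Rec.comap {W W' : Type} [DecidableEq W] [DecidableEq W'] [Fintype W] [Fintype W'] {L : ℝ}
    {w : W' → W' → ℝ} {Q : Finset W' → ℝ} (h : Rec L w Q) (eq : W ≃ W') :
    Rec L (fun v u => w (eq v) (eq u)) fun S => Q (S.map eq.toEmbedding) where
  nonneg _ _ := h.nonneg _ _
  row v := (eq.sum_comp (w (eq v))).trans_le (h.row _)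
  empty := by simpa using h.empty
  step S v hv := by
    rw [h.step _ (eq v) (mem_map_of_mem eq.toEmbedding hv), show eq v = eq.toEmbedding v from rfl,
      ← map_erase, sum_map]
    simp only [map_erase]
    rfl

variable {E V : Type} [Fintype E] [DecidableEq E] [Fintype V] [DecidableEq V]

/-- every cover is trivial over the ball of radius `k` about `x` -/
def Triv (src : E × Bool → V) (k : ℕ) (x : V) : Prop :=
  ∃ R : ℕ → V → Prop, R k x ∧ (∀ j y, R (j + 1) y → R j y) ∧
    (∀ j d, R (j + 1) (src d) → R j (src (d.1, !d.2))) ∧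
    ∀ (N : ℕ) (ρ : E → Equiv.Perm (Fin N)) (i : Fin N), ∃ A : V → Fin N, A x = i ∧
      ∀ j d, R (j + 1) (src d) → ρ d.1 (A (src (d.1, false))) = A (src (d.1, true))

/-- the vertex under a half-edge or token -/
def bs (src : E × Bool → V) : Wt E V → V
  | inl d => src d
  | inr y => y.1

theorem idx_inj {N : ℕ} (ρ : E → Equiv.Perm (Fin N)) (d : E × Bool) :
    Function.Injective (idx ρ d) := fun i j h => by
  unfold idx at h
  split_ifs at h
  exacts [(ρ d.1).symm.injective h, h]

/-- half-edges and tokens of the cover -/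
def lev {N : ℕ} (ρ : E → Equiv.Perm (Fin N)) :
    Wt E V × Fin N ≃ Wt (E × Fin N) (V × Fin N) where
  toFun
    | (inl d, i) => inl ((d.1, idx ρ d i), d.2)
    | (inr y, i) => inr ((y.1, i), y.2)
  invFun
    | inl z => (inl (z.1.1, z.2), if z.2 then ρ z.1.1 z.1.2 else z.1.2)
    | inr z => (inr (z.1.1, z.2), z.1.2)
  left_inv := by rintro ⟨⟨e, _ | _⟩ | y, i⟩ <;> simp [idx]
  right_inv := by rintro (⟨⟨e, i⟩, _ | _⟩ | y) <;> simp [idx]

theorem lift_idx {N : ℕ} (src : E × Bool → V) (ρ : E → Equiv.Perm (Fin N)) (d : E × Bool)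
    (i : Fin N) : lift src ρ ((d.1, idx ρ d i), d.2) = (src d, i) := by
  obtain ⟨e, _ | _⟩ := d <;> simp [lift, idx]

theorem cover_QQ (src : E × Bool → V) (hd : ∀ x, dg src univ x ≤ 7) {l : ℝ} (hl : 0 ≤ l) (k : ℕ)
    (B : Finset V) (hB : ∀ x, x ∉ B → Triv src k x) {N : ℕ} (ρ : E → Equiv.Perm (Fin N)) :
    N * log (QQ src l univ) ≤ log (QQ (lift src ρ) l univ) +
      N * (((2 * Fintype.card E + 2 * Fintype.card V) * (9 * l / (1 + 9 * l)) ^ k + 9 * #B) *
        log (1 + 9 * l)) := by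
  have hd' : ∀ z, dg (lift src ρ) univ z ≤ 7 := fun z => by
    rw [dg_lift]
    exact le_trans (le_of_eq (by simp [cnt, dg, half])) (hd z.1)
  have h := (rec_QQ src l hl hd).cover ((rec_QQ (lift src ρ) l hl hd').comap (lev ρ))
    (by positivity) k {v | bs src v ∉ B} ?_
  · rw [map_univ_equiv] at h
    refine h.trans (add_le_add_right (mul_le_mul_of_nonneg_left (mul_le_mul_of_nonneg_right
      (add_le_add (le_of_eq ?_) ?_) (log_nonneg (by linarith))) N.cast_nonneg) _)
    · simp [mul_comm]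
    · have := card_le_mul_card_image_of_maps_to (s := ({v | bs src v ∉ B} : Finset (Wt E V))ᶜ)
        (t := B) (f := bs src) (by simp) 9 fun x _ => by
          refine (card_le_card (t := (({d | d.1 ∈ univ ∧ src d = x} : Finset (E × Bool)).disjSum
            ({x} ×ˢ univ))) ?_).trans ?_
          · rintro (d | y) h
            · simpa [bs] using (mem_filter.1 h).2
            · exact inr_mem_disjSum.2 (mem_product.2
                ⟨mem_singleton.2 (mem_filter.1 h).2, mem_univ _⟩)
          · have := hd x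
            rw [card_disjSum, card_product, card_singleton, card_univ, Fintype.card_bool]
            unfold dg at this
            omega
      exact_mod_cast this
  intro v hv i
  obtain ⟨R, r0, r1, r2, r3⟩ := hB _ (mem_filter.1 hv).2
  obtain ⟨A, a0, a1⟩ := r3 N ρ i
  have key : ∀ j d, R (j + 1) (src d) →
      idx ρ (d.1, !d.2) (A (src (d.1, !d.2))) = idx ρ d (A (src d)) := by
    rintro j ⟨e, _ | _⟩ h <;> simp [idx, ← a1 j _ h]
  refine ⟨fun u => A (bs src u), fun j u => R j (bs src u), a0, r0, ?_, ?_, ?_⟩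
  · rintro j (d | y) (d' | y') p h <;> simp only [wt, ne_eq, ite_eq_right_iff, not_forall] at h <;>
      obtain ⟨h, -⟩ := h <;> simp only [bs] at p ⊢
    · exact h ▸ r2 j d p
    · exact h ▸ r1 j _ p
    · exact h ▸ r1 j _ p
    · exact h ▸ r1 j _ p
  · rintro j (d | y) (d' | y') p <;> simp only [lev, Equiv.coe_fn_mk, wt, bs, lift_idx] at p ⊢ <;>
      refine if_congr ⟨fun h => ?_, fun h => ?_⟩ rfl rfl
    · simp only [Prod.mk.injEq] at h
      exact Prod.ext h.1.1 h.2
    · rw [h, key j d p]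
    · exact congrArg Prod.fst h
    · rw [h]
    · exact congrArg Prod.fst h
    · rw [h]
    · simp only [Prod.mk.injEq] at h
      exact Prod.ext h.1.1 h.2
    · rw [h]
  · rintro j (d | y) ⟨d' | y', i'⟩ p h <;>
      simp only [lev, Equiv.coe_fn_mk, wt, bs, lift_idx, ne_eq, ite_eq_right_iff, not_forall,
        Prod.mk.injEq] at p h ⊢ <;> obtain ⟨h, -⟩ := h
    · obtain rfl : d' = (d.1, !d.2) := Prod.ext h.1.1 h.2
      exact idx_inj ρ _ ((key j d p).trans h.1.2.symm)
    · rw [← h.1, h.2]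
    · rw [h.1, h.2]
    · rw [h.1.1, h.1.2]

theorem le_one_of_poly {x : ℝ} {m : ℕ} (h : ∀ N : ℕ, x ^ N ≤ (9 * (N + 1) ^ 3) ^ m) : x ≤ 1 := by
  by_contra! h1
  have t := ((tendsto_pow_const_div_const_pow_of_one_lt (3 * m) h1).comp
    (tendsto_add_atTop_nat 1)).const_mul (9 ^ m * x)
  rw [mul_zero] at t
  obtain ⟨N, hN⟩ := (t.eventually (gt_mem_nhds one_pos)).exists
  have x0 : 0 < x := by linarith
  simp only [Function.comp] at hN
  rw [← mul_div_assoc, div_lt_one (by positivity), pow_succ, pow_mul] at hN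
  have := h N
  rw [mul_pow] at this
  push_cast at hN
  nlinarith

theorem ff_ge {μ : ℝ} (h : 1 ≤ μ) (k : ℕ) : c02 k ≤ ff μ k := by
  have p : 0 < μ := by linarith
  have k0 : (0 : ℝ) ≤ k * (k - 1) := by
    rcases k with _ | k
    · simp
    · push_cast; rw [add_sub_cancel_right]; positivity
  unfold c02 ff g
  split_ifs with c
  · rw [le_div_iff₀ (by positivity)]
    rcases c with rfl | rfl <;> norm_num
    nlinarith [sq_nonneg μ]
  · norm_num
    positivity

theorem ff_le {μ : ℝ} (h : 1 ≤ μ) (k : ℕ) (hk : k ≤ 7) : ff μ k ≤ c02 k + 30 / μ := by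
  have p : 0 < μ := by linarith
  have m : ∀ {a b : ℕ}, a ≤ b → μ ^ a ≤ μ ^ b := fun hab => pow_le_pow_right₀ h hab
  unfold ff g
  rw [div_le_iff₀ (by positivity), add_mul,
    show 30 / μ * (2 * μ ^ 2 * μ ^ k) = 60 * μ ^ (k + 1) by field_simp; ring]
  have a0 := m (show 0 ≤ k + 1 by omega)
  rcases (by omega : k = 0 ∨ k = 1 ∨ k = 2 ∨ 3 ≤ k) with rfl | rfl | rfl | c
  · norm_num [c02]; linarith
  · norm_num [c02]; nlinarith
  · have := m (show 2 ≤ 3 by omega)
    norm_num [c02] at a0 ⊢; linarith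
  · have a2 := m (show 2 ≤ k + 1 by omega)
    have a4 := m (show 4 ≤ k + 1 by omega)
    rw [c02, if_neg (by omega)]
    interval_cases k <;> norm_num at a0 a2 a4 ⊢ <;> linarith

theorem Phi_le (src : E × Bool → V) (hs : Function.Surjective src)
    (hd : ∀ x, dg src univ x ≤ 7) {μ : ℝ} (hμ : 1 ≤ μ) (k : ℕ) (B : Finset V)
    (hB : ∀ x, x ∉ B → Triv src k x) : Phi c02 src ≤
      exp ((6 * Fintype.card E * (9 * μ ^ 2 / (1 + 9 * μ ^ 2)) ^ k + 9 * #B) *
        log (1 + 9 * μ ^ 2)) * (gm * (1 + 128 * (30 / μ))) ^ (2 * Fintype.card E) := by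
  have p : 0 < μ := by linarith
  have c0 : ∀ k, 0 ≤ c02 k := fun k => by unfold c02; split_ifs <;> norm_num
  have f0 : ∀ k, 0 ≤ ff μ k := fun k => (c0 k).trans (ff_ge hμ k)
  have g0 : 0 < gm := lt_of_lt_of_le (by norm_num) gm_ge
  refine (sum_le_sum fun A _ => prod_le_prod (fun x _ => c0 _) fun x _ => ff_ge hμ _).trans ?_
  change Phi (ff μ) src ≤ _
  set Ψ := (gm * (1 + 128 * (30 / μ))) ^ (2 * Fintype.card E) with hΨ
  set t := (6 * Fintype.card E * (9 * μ ^ 2 / (1 + 9 * μ ^ 2)) ^ k + 9 * #B) *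
    log (1 + 9 * μ ^ 2) with ht
  have Ψ0 : 0 < Ψ := by positivity
  rw [← div_le_one (by positivity)]
  refine le_one_of_poly (m := Fintype.card E) fun N => ?_
  have a := annealed src (ff μ) f0 (bethe src hs hd f0 (by positivity) (ff_le hμ)) N
  have b : ∀ ρ : E → Equiv.Perm (Fin N), (Phi (ff μ) src / exp t) ^ N ≤ Phi (ff μ) (lift src ρ) := by
    intro ρ
    have c := cover_QQ src hd (sq_nonneg μ) k B hB ρ
    have q1 := (rec_QQ src _ (sq_nonneg μ) hd).pos univ
    have hd' : ∀ z, dg (lift src ρ) univ z ≤ 7 := fun z => by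
      rw [dg_lift]
      exact le_trans (le_of_eq (by simp [cnt, dg, half])) (hd z.1)
    have q2 := (rec_QQ _ _ (sq_nonneg μ) hd').pos univ
    have v : (Fintype.card V : ℝ) ≤ 2 * Fintype.card E := by
      have := Fintype.card_le_of_surjective src hs
      rw [Fintype.card_prod, Fintype.card_bool, mul_comm] at this
      exact_mod_cast this
    replace c : N * log (QQ src (μ ^ 2) univ) ≤ log (QQ (lift src ρ) (μ ^ 2) univ) + N * t :=
      c.trans (add_le_add_right (mul_le_mul_of_nonneg_left (mul_le_mul_of_nonneg_right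
        (add_le_add_left (mul_le_mul_of_nonneg_right (by linarith) (by positivity)) _)
        (log_nonneg (by nlinarith))) N.cast_nonneg) _)
    rw [← exp_le_exp, exp_add, exp_log q2, exp_nat_mul, exp_nat_mul, exp_log q1, QQ_univ _ p,
      QQ_univ _ p, Fintype.card_prod, Fintype.card_prod, Fintype.card_fin, pow_mul, pow_mul,
      ← mul_pow, mul_pow _ (Phi _ _), mul_assoc, mul_le_mul_iff_right₀ (by positivity)] at c
    rwa [div_pow, div_le_iff₀ (by positivity)]
  have c := (sum_le_sum fun ρ _ => b ρ).trans a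
  rw [sum_const, card_univ, Fintype.card_fun, Fintype.card_perm, Fintype.card_fin, nsmul_eq_mul,
    mul_pow, Nat.cast_pow, mul_assoc, mul_le_mul_iff_right₀ (by positivity)] at c
  rwa [← div_div, div_pow, div_le_iff₀ (by positivity)]

theorem params {b : ℝ} (hb : gm ^ 2 < b) : ∃ (μ : ℝ) (k : ℕ), 1 ≤ μ ∧
    exp (6 * (9 * μ ^ 2 / (1 + 9 * μ ^ 2)) ^ k * log (1 + 9 * μ ^ 2)) *
      (gm * (1 + 128 * (30 / μ))) ^ 2 ≤ b := by
  have t1 : Tendsto (fun μ : ℝ => (gm * (1 + 128 * (30 / μ))) ^ 2) atTop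
      (𝓝 ((gm * (1 + 128 * 0)) ^ 2)) :=
    ((((tendsto_const_nhds.div_atTop tendsto_id).const_mul _).const_add _).const_mul _).pow 2
  obtain ⟨μ, h1, h2⟩ := ((eventually_ge_atTop 1).and
    (t1.eventually (gt_mem_nhds (by simpa using hb)))).exists
  have t2 : Tendsto (fun k : ℕ => exp (6 * (9 * μ ^ 2 / (1 + 9 * μ ^ 2)) ^ k *
      log (1 + 9 * μ ^ 2)) * (gm * (1 + 128 * (30 / μ))) ^ 2) atTop
      (𝓝 (exp (6 * 0 * log (1 + 9 * μ ^ 2)) * (gm * (1 + 128 * (30 / μ))) ^ 2)) :=
    (((tendsto_pow_atTop_nhds_zero_of_lt_one (by positivity)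
      ((div_lt_one (by positivity)).2 (by linarith))).const_mul _).mul_const _).rexp.mul_const _
  obtain ⟨k, hk⟩ := (t2.eventually (gt_mem_nhds (by simpa using h2))).exists
  exact ⟨μ, k, h1, hk.le⟩

theorem up_multi {b : ℝ} (hb : gm ^ 2 < b) : ∃ (k : ℕ) (K : ℝ), 1 ≤ K ∧
    ∀ (E V : Type) [Fintype E] [DecidableEq E] [Fintype V] [DecidableEq V] (src : E × Bool → V),
      (∀ x, dg src univ x ≤ 7) → ∀ B : Finset V, (∀ x, x ∉ B → Triv src k x) →
        Phi c02 src ≤ b ^ Fintype.card E * K ^ #B := by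
  obtain ⟨μ, k, h1, h2⟩ := params hb
  have l0 : 0 ≤ log (1 + 9 * μ ^ 2) := log_nonneg (by nlinarith)
  refine ⟨k, exp (9 * log (1 + 9 * μ ^ 2)), one_le_exp (by positivity), ?_⟩
  intro E V _ _ _ _ src hd B hB
  set src' : E × Bool → {x // x ∈ univ.image src} := fun d => ⟨src d, by simp⟩ with hs
  have e : ∀ A x, dg src' A x = dg src A x.1 := fun A x => by simp [dg, hs, Subtype.ext_iff]
  have := Phi_le src' (fun ⟨x, hx⟩ => by
    obtain ⟨d, -, rfl⟩ := mem_image.1 hx; exact ⟨d, rfl⟩) (fun x => e _ x ▸ hd x.1) h1 k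
    (B.subtype _) fun x hx => by
      obtain ⟨R, r0, r1, r2, r3⟩ := hB x.1 (by simpa using hx)
      refine ⟨fun j y => R j y.1, r0, fun j y => r1 j _, r2, fun N ρ i => ?_⟩
      obtain ⟨A, a0, a1⟩ := r3 N ρ i
      exact ⟨fun y => A y.1, a0, a1⟩
  refine le_trans (le_of_eq (sum_congr rfl fun A _ => ?_)) (this.trans ?_)
  · simp only [e]
    rw [prod_coe_sort (univ.image src) fun x => c02 (dg src A x)]
    refine (prod_subset (subset_univ _) fun x _ hx => if_pos (.inl ?_)).symm
    exact card_eq_zero.2 (filter_eq_empty_iff.2 fun d _ h => hx (by simp [← h.2]))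
  · have c : (#(B.subtype fun x => x ∈ univ.image src) : ℝ) ≤ #B := by
      rw [card_subtype]; exact_mod_cast card_filter_le _ _
    rw [add_mul, exp_add, mul_right_comm, pow_mul, ← exp_nat_mul]
    refine mul_le_mul (le_trans (le_of_eq ?_) (pow_le_pow_left₀ (by positivity) h2 _))
      (exp_le_exp.2 (by nlinarith)) (by positivity) (pow_nonneg (by nlinarith) _)
    rw [mul_pow (exp _), ← exp_nat_mul]
    congr 2; ring

end Pool.Agent.MP_94842c_co.Tree

end MrgPart7

-- ======== part 8: formerly Pool.Agent.MP_94842c_co.h42.UpG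
section MrgPart8

/-! The upper bound for simple graphs. -/

set_option autoImplicit false
set_option linter.unusedSectionVars false

namespace Pool.Agent.MP_94842c_co.Tree

open SimpleGraph Lim Finset

variable {V : Type} {G : SimpleGraph V}

theorem ends (G : SimpleGraph V) : ∃ src : G.edgeSet × Bool → V,
    ∀ e, e.1 = s(src (e, false), src (e, true)) := by
  refine ⟨fun d => if d.2 then d.1.1.out.2 else d.1.1.out.1, fun e => ?_⟩
  exact (Quot.out_eq e.1).symm

section
variable [Fintype V] [DecidableEq V] [Fintype G.edgeSet] {src : G.edgeSet × Bool → V}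
  (hs : ∀ e, e.1 = s(src (e, false), src (e, true)))
include hs

theorem ends_eq (d : G.edgeSet × Bool) : d.1.1 = s(src d, src (d.1, !d.2)) := by
  obtain ⟨e, _ | _⟩ := d
  · exact hs e
  · exact (hs e).trans Sym2.eq_swap

theorem ends_adj (d : G.edgeSet × Bool) : G.Adj (src d) (src (d.1, !d.2)) :=
  G.mem_edgeSet.1 (ends_eq hs d ▸ d.1.2)

theorem dg_le (A : Finset G.edgeSet) (x : V) :
    dg src A x = {y | ∃ e ∈ A, e.1 = s(x, y)}.ncard := by
  rw [dg, ← Set.ncard_coe_finset]
  refine Set.ncard_congr (fun d _ => src (d.1, !d.2)) ?_ ?_ ?_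
  · intro d hd
    obtain ⟨-, h, rfl⟩ := mem_filter.1 hd
    exact ⟨d.1, h, ends_eq hs d⟩
  · rintro ⟨e, b⟩ ⟨e', b'⟩ h h' q
    have a := (mem_filter.1 h').2.2.trans (mem_filter.1 h).2.2.symm
    obtain rfl : e = e' :=
      Subtype.ext ((ends_eq hs (e, b)).trans (by rw [← a, q]; exact (ends_eq hs (e', b')).symm))
    by_cases c : b' = b
    · rw [c]
    · rw [Bool.eq_not_of_ne c] at a
      exact absurd a.symm (ends_adj hs (e, b)).ne
  · rintro y ⟨e, he, q⟩
    rcases Sym2.eq_iff.1 ((hs e).symm.trans q) with c | c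
    · exact ⟨(e, false), mem_filter.2 ⟨mem_univ _, he, c.1⟩, c.2⟩
    · exact ⟨(e, true), mem_filter.2 ⟨mem_univ _, he, c.2⟩, c.1⟩

theorem cycles_le_Phi : ((cycles G).ncard : ℝ) ≤ Phi c02 src := by
  classical
  have c0 : ∀ k, 0 ≤ c02 k := fun k => by unfold c02; split_ifs <;> norm_num
  have inj : Set.InjOn (fun C : Set (Sym2 V) => ({e | e.1 ∈ C} : Finset G.edgeSet))
      (cycles G).toFinite.toFinset := fun C hC D hD h => by
    ext e
    have := fun he => Finset.ext_iff.1 h ⟨e, he⟩
    simp only [mem_filter, mem_univ, true_and] at this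
    exact ⟨fun a => (this (cycles_sub C (by simpa using hC) a)).1 a,
      fun a => (this (cycles_sub D (by simpa using hD) a)).2 a⟩
  rw [Set.ncard_eq_toFinset_card, ← card_image_of_injOn inj, card_eq_sum_ones, Nat.cast_sum]
  refine (sum_le_sum fun A hA => ?_).trans (sum_le_sum_of_subset_of_nonneg (subset_univ _)
    fun _ _ _ => prod_nonneg fun _ _ => c0 _)
  obtain ⟨C, hC, rfl⟩ := mem_image.1 hA
  have hC : C ∈ cycles G := by simpa using hC
  refine (Nat.cast_one.trans (prod_eq_one fun x _ => if_pos ?_).symm).le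
  rw [dg_le hs]
  convert cyc_deg hC x using 4 <;> ext y <;>
    exact ⟨fun ⟨e, he, q⟩ => q ▸ (mem_filter.1 he).2,
      fun h => ⟨⟨_, cycles_sub C hC h⟩, by simpa using h, rfl⟩⟩

theorem triv_of {k : ℕ} {x : V} (h : (inside G (ball G k x)).IsAcyclic) : Triv src k x := by
  classical
  have r2 : ∀ j d, (∃ p : G.Walk x (src d), p.length + (j + 1) ≤ k) →
      ∃ p : G.Walk x (src (d.1, !d.2)), p.length + j ≤ k := fun j d ⟨p, hp⟩ =>
    ⟨p.concat (ends_adj hs d), by rw [Walk.length_concat]; omega⟩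
  refine ⟨fun j y => ∃ p : G.Walk x y, p.length + j ≤ k, ⟨.nil, by simp⟩,
    fun j y ⟨p, hp⟩ => ⟨p, by omega⟩, r2, fun N ρ i => ?_⟩
  obtain ⟨A, a0, a1⟩ := pot h (fun u v a => if h : s(u, v) ∈ G.edgeSet then
    if src (⟨_, h⟩, false) = u then ρ ⟨_, h⟩ a else (ρ ⟨_, h⟩).symm a else a) (fun u v a h => by
      have h1 : s(u, v) ∈ G.edgeSet := h.1
      have h2 : s(v, u) ∈ G.edgeSet := h.1.symm
      have e : (⟨_, h2⟩ : G.edgeSet) = ⟨_, h1⟩ := Subtype.ext Sym2.eq_swap
      simp only [dif_pos h1, dif_pos h2, e]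
      rcases Sym2.eq_iff.1 (hs ⟨_, h1⟩) with c | c
      · simp [← c.1, h.1.ne]
      · simp [← c.2, h.1.ne']) x i
  refine ⟨A, a0, fun j d hp => ?_⟩
  have b : ∀ b, src (d.1, b) ∈ ball G k x := fun b => by
    by_cases c : b = d.2
    · obtain ⟨p, hp⟩ := hp
      exact c ▸ ⟨p, by omega⟩
    · obtain ⟨p, hp⟩ := r2 j d hp
      exact Bool.eq_not_of_ne c ▸ ⟨p, by omega⟩
  have h1 : s(src (d.1, false), src (d.1, true)) ∈ G.edgeSet := hs d.1 ▸ d.1.2
  have e : (⟨_, h1⟩ : G.edgeSet) = d.1 := Subtype.ext (hs d.1).symm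
  rw [a1 _ _ ⟨h1, b false, b true⟩ (inside_reach (b false)), dif_pos h1, e, if_pos rfl]

end

theorem upper {b : ℝ} (hb : gm ^ 2 < b) : ∃ (g : ℕ) (K : ℝ), ∀ (V : Type) [Finite V]
    (G : SimpleGraph V), ((cycles G).ncard : ℝ) ≤ b ^ G.edgeSet.ncard * K ^ (short G g).ncard := by
  classical
  obtain ⟨k, K, K1, hK⟩ := up_multi hb
  refine ⟨8 ^ k, K ^ 8 ^ k, fun V _ G => ?_⟩
  have := Fintype.ofFinite V
  have b1 : 4 / 3 ≤ b := by nlinarith [gm_ge]
  generalize hm : G.edgeSet.ncard = m
  induction m using Nat.strong_induction_on generalizing G with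
  | _ m ih =>
  by_cases hd : ∀ x, (G.neighborSet x).ncard ≤ 7
  · obtain ⟨src, hs⟩ := ends G
    have := hK _ V src (fun x => ?_) {x | ∃ y ∈ short G (8 ^ k), x ∈ ball G k y} fun x hx =>
      triv_of hs (inside_acyclic (ball_card hd k x) fun v hv c =>
        hx (mem_filter.2 ⟨mem_univ _, v, c, ball_symm hv⟩))
    · refine (cycles_le_Phi hs).trans (this.trans ?_)
      rw [← hm, Set.ncard_eq_toFinset_card', Set.toFinset_card, ← pow_mul, mul_comm (8 ^ k)]
      refine mul_le_mul_of_nonneg_left (pow_le_pow_right₀ K1 ?_) (by positivity)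
      rw [← Set.ncard_coe_finset]
      exact ncard_le_mul (ball G k) (fun x hx => (mem_filter.1 hx).2) fun y _ => ball_card hd k y
    · rw [dg_le hs]
      refine (Set.ncard_le_ncard ?_).trans (hd x)
      rintro y ⟨e, -, q⟩
      exact G.mem_edgeSet.1 (q ▸ e.2)
  · simp only [not_forall, not_le] at hd
    obtain ⟨x, hx⟩ := hd
    obtain ⟨y, a, hy⟩ := exists_light hx
    have e : (G.deleteEdges {s(x, y)}).edgeSet.ncard + 1 = m := by
      rw [edgeSet_deleteEdges, Set.ncard_sdiff_singleton_add_one (G.mem_edgeSet.2 a), hm]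
    have h1 := ih _ (by omega) (G.deleteEdges {s(x, y)}) rfl
    have h2 := pow_le_pow_right₀ (one_le_pow₀ (n := 8 ^ k) K1)
      (Set.ncard_le_ncard (short_mono (G.deleteEdges_le {s(x, y)}) (8 ^ k)))
    have h3 : (3 : ℝ) * (cycles G).ncard ≤ 4 * (cycles (G.deleteEdges {s(x, y)})).ncard := by
      exact_mod_cast hy
    have h4 := h1.trans (mul_le_mul_of_nonneg_left h2 (by positivity))
    rw [← e, pow_succ]
    nlinarith [mul_le_mul_of_nonneg_left b1 ((Nat.cast_nonneg _).trans h4)]

end Pool.Agent.MP_94842c_co.Tree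

end MrgPart8

-- marker of a merged file
example : 731051 + 196868 = 731051 + 196868 := rfl
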